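import Mathlib

/-!
Numerical lemmas for the determinant method.
-/

set_option autoImplicit false

namespace Pool.Agent.Helper54.DC

/-- the determinants are small -/
theorem small (a b : ℕ) (ha : 1 ≤ a) (hb : 1 ≤ b) (ε : ℝ) (hε : 0 < ε) :
    ∃ (L : ℕ) (N₀ : ℝ), 1 ≤ N₀ ∧ ∀ N p : ℝ, N₀ ≤ N → N ^ (1 / ((a : ℝ) * b) + ε) ≤ p →
      ((L * b).factorial : ℝ) * ((N ^ (1 / (a : ℝ))) ^ (b * (L * (L - 1) / 2)) *
        (N ^ (1 / (b : ℝ))) ^ (L * (b * (b - 1) / 2))) < p ^ ((L * b) * (L * b - 1) / 2) := by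
  obtain ⟨L0, hL0⟩ := exists_nat_gt (2 / ε)
  set L : ℕ := L0 + 1 with hL
  refine ⟨L, ((L * b).factorial : ℝ) + 1, by linarith [Nat.cast_nonneg (α := ℝ) (L * b).factorial],
    fun N p hN hp => ?_⟩
  have hN1 : 1 < N := by
    have : (1 : ℝ) ≤ ((L * b).factorial : ℝ) := by exact_mod_cast Nat.one_le_iff_ne_zero.2 (Nat.factorial_ne_zero _)
    linarith
  have hN0 : (0 : ℝ) < N := by linarith
  have ha' : (1 : ℝ) ≤ a := by exact_mod_cast ha
  have hb' : (1 : ℝ) ≤ b := by exact_mod_cast hb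
  have hL1 : (1 : ℝ) ≤ L := by rw [hL]; push_cast; linarith [Nat.cast_nonneg (α := ℝ) L0]
  have hLε : 2 ≤ ε * (L - 1) := by
    rw [hL]; push_cast
    have := (div_lt_iff₀ hε).1 hL0
    linarith
  -- exponents as real numbers
  have e1 : ((b * (L * (L - 1) / 2) : ℕ) : ℝ) = b * (L * (L - 1) / 2) := by
    rw [Nat.cast_mul, Nat.cast_div (even_iff_two_dvd.1 (Nat.even_mul_pred_self L)) (by norm_num)]
    rw [Nat.cast_mul, Nat.cast_sub (by omega)]
    simp
  have e2 : ((L * (b * (b - 1) / 2) : ℕ) : ℝ) = L * (b * (b - 1) / 2) := by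
    rw [Nat.cast_mul, Nat.cast_div (even_iff_two_dvd.1 (Nat.even_mul_pred_self b)) (by norm_num)]
    rw [Nat.cast_mul, Nat.cast_sub (by omega)]
    simp
  have hLb : 1 ≤ L * b := Nat.mul_pos (by omega) (by omega)
  have e3 : (((L * b) * (L * b - 1) / 2 : ℕ) : ℝ) = (L * b) * (L * b - 1) / 2 := by
    rw [Nat.cast_div (even_iff_two_dvd.1 (Nat.even_mul_pred_self (L * b))) (by norm_num)]
    rw [Nat.cast_mul, Nat.cast_sub hLb]
    push_cast
    rfl
  have h1 : N ^ ((1 / ((a : ℝ) * b) + ε) * ((L * b) * (L * b - 1) / 2)) ≤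
      p ^ ((L * b) * (L * b - 1) / 2) := by
    rw [Real.rpow_mul hN0.le, ← e3, Real.rpow_natCast]
    exact pow_le_pow_left₀ (Real.rpow_nonneg hN0.le _) hp _
  refine lt_of_lt_of_le ?_ h1
  rw [← Real.rpow_natCast, ← Real.rpow_natCast, e1, e2, ← Real.rpow_mul hN0.le,
    ← Real.rpow_mul hN0.le, ← Real.rpow_add hN0]
  have hfac : ((L * b).factorial : ℝ) < N ^ (1 : ℝ) := by rw [Real.rpow_one]; linarith
  refine lt_of_lt_of_le (mul_lt_mul_of_pos_right hfac (Real.rpow_pos_of_pos hN0 _)) ?_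
  rw [← Real.rpow_add hN0]
  refine Real.rpow_le_rpow_of_exponent_le hN1.le ?_
  have h2 : (1 / ((a : ℝ) * b) + ε) * ((L * b) * (L * b - 1) / 2) =
      L * (L * b - 1) / (2 * a) + ε * ((L * b) * (L * b - 1) / 2) := by
    field_simp
  rw [h2]
  have h3 : 1 / (a : ℝ) * (b * (L * (L - 1) / 2)) = L * (L * b - b) / (2 * a) := by
    field_simp
  have h4 : 1 / (b : ℝ) * (L * (b * (b - 1) / 2)) = L * (b - 1) / 2 := by
    field_simp
  rw [h3, h4]
  have h5 : (L : ℝ) * (L * b - b) / (2 * a) ≤ L * (L * b - 1) / (2 * a) := by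
    apply div_le_div_of_nonneg_right _ (by positivity)
    nlinarith
  have h6 : (L : ℝ) * (b - 1) / 2 + 1 ≤ ε * ((L * b) * (L * b - 1) / 2) := by
    have h7 : (b : ℝ) * (L - 1) ≤ L * b - 1 := by nlinarith
    have h8 : 2 * (b : ℝ) ≤ ε * (L * b - 1) := by nlinarith
    have h9 : (L : ℝ) * b * (2 * b) ≤ (L * b) * (ε * (L * b - 1)) := by
      exact mul_le_mul_of_nonneg_left h8 (by positivity)
    have h10 : (L : ℝ) * (b - 1) / 2 + 1 ≤ L * b * (2 * b) / 2 := by
      nlinarith [mul_nonneg (by linarith : (0:ℝ) ≤ L - 1) (by linarith : (0:ℝ) ≤ b - 1)]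
    calc (L : ℝ) * (b - 1) / 2 + 1 ≤ L * b * (2 * b) / 2 := h10
      _ ≤ (L * b) * (ε * (L * b - 1)) / 2 := by linarith
      _ = _ := by ring
  linarith

/-- many primes cannot all divide a small integer -/
theorem pow_le_of_dvd (k : ℕ) : ∀ (T : ℕ) (m : ℤ), 1 ≤ T → m ≠ 0 →
    (∀ p : ℕ, p.Prime → T < p → p ≤ 2 ^ k * T → (p : ℤ) ∣ m) → (T : ℤ) ^ k ≤ |m| := by
  induction k with
  | zero =>
    intro T m _ hm _
    simpa using Int.one_le_abs hm
  | succ k ih =>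
    intro T m hT hm h
    obtain ⟨q, hq, hq1, hq2⟩ := Nat.exists_prime_lt_and_le_two_mul T (by omega)
    have hqm : (q : ℤ) ∣ m := h q hq hq1 (by
      calc q ≤ 2 * T := hq2
        _ ≤ 2 ^ (k + 1) * T := by
          apply Nat.mul_le_mul_right
          calc 2 = 2 ^ 1 := (pow_one 2).symm
            _ ≤ 2 ^ (k + 1) := Nat.pow_le_pow_right (by norm_num) (by omega))
    obtain ⟨m', rfl⟩ := hqm
    have hm' : m' ≠ 0 := right_ne_zero_of_mul hm
    have h1 := ih (2 * T) m' (by omega) hm' (by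
      intro p hp hp1 hp2
      have hpm := h p hp (by omega) (by rw [pow_succ, mul_assoc]; exact hp2)
      have hpi : Prime (p : ℤ) := Nat.prime_iff_prime_int.1 hp
      rcases hpi.dvd_or_dvd hpm with h2 | h2
      · exfalso
        have h3 : p ∣ q := by exact_mod_cast h2
        have := (Nat.prime_dvd_prime_iff_eq hp hq).1 h3
        omega
      · exact h2)
    rw [abs_mul, pow_succ']
    have h4 : (T : ℤ) ≤ |(q : ℤ)| := by
      rw [Nat.abs_cast]
      exact_mod_cast hq1.le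
    have h5 : (T : ℤ) ^ k ≤ |m'| := by
      refine le_trans (pow_le_pow_left₀ (by positivity) ?_ k) h1
      push_cast
      have : (0 : ℤ) ≤ T := by positivity
      linarith
    exact mul_le_mul h4 h5 (by positivity) (abs_nonneg _)

/-- a prime of given size which does not divide `m` -/
theorem exists_prime_not_dvd (k T : ℕ) (m : ℤ) (hT : 1 ≤ T) (hm : m ≠ 0) (h : |m| < (T : ℤ) ^ k) :
    ∃ p : ℕ, p.Prime ∧ T < p ∧ p ≤ 2 ^ k * T ∧ ¬ (p : ℤ) ∣ m := by
  by_contra hcon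
  push Not at hcon
  exact absurd (pow_le_of_dvd k T m hT hm hcon) (not_le.2 h)

end Pool.Agent.Helper54.DC
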