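import Pool.Agent.Helper54.DC.Cls
import Pool.Agent.Helper54.DC.Num

/-!
The determinant method for `α x ^ a + β y ^ b = m`: `O (N ^ (1 / (a b) + ε))` points, uniformly in `m`.
-/

set_option autoImplicit false

namespace Pool.Agent.Helper54.DC

open Polynomial

/-- the integral points -/
structure OnCurve (a b : ℕ) (α β m : ℤ) (N : ℝ) (P : ℕ × ℕ) : Prop where
  eq : α * (P.1 : ℤ) ^ a + β * (P.2 : ℤ) ^ b = m
  fst : (P.1 : ℝ) ^ a ≤ N
  snd : (P.2 : ℝ) ^ b ≤ N

theorem root_bound {a : ℕ} (ha : 1 ≤ a) {N x : ℝ} (hx : 0 ≤ x) (h : x ^ a ≤ N) :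
    x ≤ N ^ (1 / (a : ℝ)) := by
  have ha' : (a : ℝ) ≠ 0 := by exact_mod_cast (by omega : a ≠ 0)
  calc x = (x ^ a) ^ (1 / (a : ℝ)) := by
        rw [← Real.rpow_natCast, ← Real.rpow_mul hx, mul_one_div_cancel ha', Real.rpow_one]
    _ ≤ _ := Real.rpow_le_rpow (by positivity) h (by positivity)

/-- the points in a residue class with `p ∤ y` -/
theorem fibre {a b L : ℕ} (ha : 1 ≤ a) (hb : 1 ≤ b) {α β m : ℤ} (hα : α ≠ 0) (hβ : β ≠ 0)
    (hm : m ≠ 0) {p : ℕ} (hp : p.Prime) (N : ℝ)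
    (hsmall : ((L * b).factorial : ℝ) * ((N ^ (1 / (a : ℝ))) ^ (b * (L * (L - 1) / 2)) *
        (N ^ (1 / (b : ℝ))) ^ (L * (b * (b - 1) / 2))) < (p : ℝ) ^ ((L * b) * (L * b - 1) / 2))
    (s : Finset (ℕ × ℕ)) (hs : ∀ P ∈ s, OnCurve a b α β m N P) (x0 y0 : ℤ)
    (hu : ¬ (p : ℤ) ∣ b * β * y0)
    (hc : ∀ P ∈ s, (p : ℤ) ∣ (P.1 : ℤ) - x0 ∧ (p : ℤ) ∣ (P.2 : ℤ) - y0) :
    s.card ≤ b * (a + L) := by
  classical
  let f : ℕ × ℕ → ℤ × ℤ := fun P => ((P.1 : ℤ), (P.2 : ℤ))
  have h1 := class_bound (L := L) ha hb hα hβ hm hp (s.image f) x0 y0 hu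
    (N ^ (1 / (a : ℝ))) (N ^ (1 / (b : ℝ))) (by
      intro Q hQ
      rw [Finset.mem_image] at hQ
      obtain ⟨P, hP, rfl⟩ := hQ
      refine ⟨(hs P hP).eq, (hc P hP).1, (hc P hP).2, ?_, ?_⟩
      · have := root_bound ha (Nat.cast_nonneg (α := ℝ) P.1) (hs P hP).fst
        simpa [f] using this
      · have := root_bound hb (Nat.cast_nonneg (α := ℝ) P.2) (hs P hP).snd
        simpa [f] using this) hsmall
  refine le_trans (le_of_eq ?_) h1
  rw [Finset.image_image, Finset.card_image_of_injOn]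
  intro P hP Q hQ hPQ
  have e1 : P.1 = Q.1 := by
    have : ((P.1 : ℕ) : ℤ) = Q.1 := hPQ
    exact_mod_cast this
  have e2 : (P.2 : ℤ) ^ b = (Q.2 : ℤ) ^ b := by
    have h2 := (hs P hP).eq
    have h3 := (hs Q hQ).eq
    rw [← e1] at h3
    have h4 : β * (P.2 : ℤ) ^ b = β * (Q.2 : ℤ) ^ b := by linarith
    exact mul_left_cancel₀ hβ h4
  have e3 : P.2 = Q.2 := by
    have h5 : P.2 ^ b = Q.2 ^ b := by exact_mod_cast e2
    exact Nat.pow_left_injective (by omega) h5
  exact Prod.ext e1 e3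

theorem OnCurve.swap {a b : ℕ} {α β m : ℤ} {N : ℝ} {P : ℕ × ℕ} (h : OnCurve a b α β m N P) :
    OnCurve b a β α m N P.swap :=
  ⟨by rw [← h.eq]; simp only [Prod.fst_swap, Prod.snd_swap]; ring, h.snd, h.fst⟩

/-- the number of the residue classes -/
theorem classes {a b : ℕ} (ha : 1 ≤ a) {α β m : ℤ} {p : ℕ} [Fact p.Prime]
    (hα : ¬ (p : ℤ) ∣ α) (t : Finset (ZMod p × ZMod p))
    (ht : ∀ q ∈ t, (α : ZMod p) * q.1 ^ a + β * q.2 ^ b = m) : t.card ≤ p * a := by
  classical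
  have h1 : t.card ≤ ∑ v : ZMod p, (t.filter fun q => q.2 = v).card := by
    rw [← Finset.card_eq_sum_card_fiberwise (fun x _ => Finset.mem_univ _)]
  refine h1.trans ?_
  have h2 : ∀ v ∈ (Finset.univ : Finset (ZMod p)), (t.filter fun q => q.2 = v).card ≤ a := by
    intro v _
    have hα' : (α : ZMod p) ≠ 0 := by
      rw [Ne, ZMod.intCast_zmod_eq_zero_iff_dvd]
      exact_mod_cast hα
    set F : (ZMod p)[X] := C (α : ZMod p) * X ^ a - C (m - β * v ^ b) with hF
    have hF0 : F ≠ 0 := by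
      intro h
      have h3 := congrArg (fun q : (ZMod p)[X] => q.coeff a) h
      simp only [hF, coeff_sub, coeff_C_mul, coeff_X_pow_self, mul_one, coeff_zero] at h3
      rw [coeff_C_of_ne_zero (by omega), sub_zero] at h3
      exact hα' h3
    have hdeg : F.natDegree ≤ a := by
      refine (natDegree_sub_le _ _).trans (max_le ?_ ((natDegree_C _).le.trans (Nat.zero_le _)))
      exact (natDegree_C_mul_le _ _).trans (natDegree_X_pow_le _)
    have hinj : ((t.filter fun q => q.2 = v).image Prod.fst).card =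
        (t.filter fun q => q.2 = v).card := by
      apply Finset.card_image_of_injOn
      intro q hq q' hq' h
      have h4 : q ∈ t.filter fun q => q.2 = v := hq
      have h5 : q' ∈ t.filter fun q => q.2 = v := hq'
      rw [Finset.mem_filter] at h4 h5
      exact Prod.ext h (h4.2.trans h5.2.symm)
    rw [← hinj]
    calc _ ≤ F.roots.toFinset.card := by
          apply Finset.card_le_card
          intro u hu
          rw [Finset.mem_image] at hu
          obtain ⟨q, hq, rfl⟩ := hu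
          rw [Finset.mem_filter] at hq
          rw [Multiset.mem_toFinset, mem_roots hF0, IsRoot.def]
          have h6 := ht q hq.1
          rw [hq.2] at h6
          simp only [hF, eval_sub, eval_mul, eval_C, eval_pow, eval_X]
          rw [← h6]
          ring
      _ ≤ Multiset.card F.roots := Multiset.toFinset_card_le _
      _ ≤ F.natDegree := card_roots' _
      _ ≤ a := hdeg
  refine (Finset.sum_le_card_nsmul _ _ _ h2).trans ?_
  rw [Finset.card_univ, ZMod.card, smul_eq_mul]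

/-- **Determinant method.** -/
theorem bp (a b : ℕ) (ha : 1 ≤ a) (hb : 1 ≤ b) (α β : ℤ) (hα : α ≠ 0) (hβ : β ≠ 0) (ε : ℝ)
    (hε : 0 < ε) : ∃ K : ℝ, 0 ≤ K ∧ ∀ (N : ℝ), 1 ≤ N → ∀ m : ℤ, m ≠ 0 → ∀ s : Finset (ℕ × ℕ),
      (∀ P ∈ s, OnCurve a b α β m N P) → (s.card : ℝ) ≤ K * N ^ (1 / ((a : ℝ) * b) + ε) := by
  classical
  obtain ⟨L, N₀, hN₀, hL⟩ := small a b ha hb ε hε
  obtain ⟨L', N₀', hN₀', hL'⟩ := small b a hb ha ε hε
  set θ : ℝ := 1 / ((a : ℝ) * b) + ε with hθ
  have ha0 : (0 : ℝ) < a := by exact_mod_cast ha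
  have hb0 : (0 : ℝ) < b := by exact_mod_cast hb
  have hθ0 : 0 < θ := by positivity
  set c₁ : ℕ := α.natAbs + β.natAbs + a + b with hc₁
  set N₁ : ℝ := max (max N₀ N₀') ((c₁ : ℝ) ^ (a * b)) with hN₁
  have hN₁1 : 1 ≤ N₁ := hN₀.trans ((le_max_left _ _).trans (le_max_left _ _))
  set k : ℕ := a * b + 1 with hk
  set K₂ : ℕ := b * (a + L) + a * (b + L') with hK₂
  refine ⟨(N₁ + 1) ^ 2 + (a * K₂ : ℕ) * (2 ^ k * (2 + c₁)), by positivity, ?_⟩
  intro N hN m hm s hs
  have hN0 : 0 < N := by linarith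
  have hNθ : 1 ≤ N ^ θ := Real.one_le_rpow hN hθ0.le
  rcases le_or_gt N₁ N with hbig | hsmall
  swap
  · -- small `N`
    have h1 : s.card ≤ (⌊N⌋₊ + 1) * (⌊N⌋₊ + 1) := by
      have h2 : s ⊆ Finset.range (⌊N⌋₊ + 1) ×ˢ Finset.range (⌊N⌋₊ + 1) := by
        intro P hP
        have hx := (hs P hP).fst
        have hy := (hs P hP).snd
        have aux : ∀ (z c : ℕ), 1 ≤ c → (z : ℝ) ^ c ≤ N → z ≤ ⌊N⌋₊ := by
          intro z c hc h
          apply Nat.le_floor
          refine le_trans ?_ h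
          have : z ≤ z ^ c := Nat.le_self_pow (by omega) z
          exact_mod_cast this
        rw [Finset.mem_product, Finset.mem_range, Finset.mem_range]
        have := aux _ _ ha hx
        have := aux _ _ hb hy
        omega
      calc s.card ≤ _ := Finset.card_le_card h2
        _ = _ := by rw [Finset.card_product, Finset.card_range]
    have h3 : (s.card : ℝ) ≤ (N₁ + 1) ^ 2 := by
      calc (s.card : ℝ) ≤ ((⌊N⌋₊ + 1) * (⌊N⌋₊ + 1) : ℕ) := by exact_mod_cast h1
        _ = ((⌊N⌋₊ : ℝ) + 1) ^ 2 := by push_cast; ring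
        _ ≤ _ := by
          have := Nat.floor_le hN0.le
          apply pow_le_pow_left₀ (by positivity)
          linarith
    calc (s.card : ℝ) ≤ (N₁ + 1) ^ 2 * 1 := by linarith
      _ ≤ ((N₁ + 1) ^ 2 + (a * K₂ : ℕ) * (2 ^ k * (2 + c₁))) * N ^ θ := by
        apply mul_le_mul _ hNθ (by norm_num) (by positivity)
        have : (0 : ℝ) ≤ (a * K₂ : ℕ) * (2 ^ k * (2 + c₁)) := by positivity
        linarith
  -- large `N`
  rcases s.eq_empty_or_nonempty with hse | ⟨P₁, hP₁⟩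
  · rw [hse]
    simp only [Finset.card_empty, Nat.cast_zero]
    positivity
  have hN1 : (c₁ : ℝ) ^ (a * b) ≤ N := (le_max_right _ _).trans hbig
  set T : ℕ := ⌈N ^ θ⌉₊ + c₁ with hT
  have hTge : N ^ θ ≤ T := by
    rw [hT]
    push_cast
    linarith [Nat.le_ceil (N ^ θ), Nat.cast_nonneg (α := ℝ) c₁]
  have hT1 : 1 ≤ T := by
    have : (1 : ℝ) ≤ T := hNθ.trans hTge
    exact_mod_cast this
  have hTle : (T : ℝ) ≤ (2 + c₁) * N ^ θ := by
    rw [hT]
    push_cast
    have h4 := Nat.ceil_lt_add_one (Real.rpow_nonneg hN0.le θ)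
    nlinarith [Nat.cast_nonneg (α := ℝ) c₁]
  have hmle : |(m : ℝ)| ≤ c₁ * N := by
    have h5 := (hs P₁ hP₁).eq
    have h6 : (m : ℝ) = α * (P₁.1 : ℝ) ^ a + β * (P₁.2 : ℝ) ^ b := by
      rw [← h5]; push_cast; ring
    rw [h6]
    have e1 : |(α : ℝ)| = (α.natAbs : ℝ) := by rw [Nat.cast_natAbs, Int.cast_abs]
    have e2 : |(β : ℝ)| = (β.natAbs : ℝ) := by rw [Nat.cast_natAbs, Int.cast_abs]
    calc |(α : ℝ) * (P₁.1 : ℝ) ^ a + β * (P₁.2 : ℝ) ^ b|
        ≤ |(α : ℝ) * (P₁.1 : ℝ) ^ a| + |(β : ℝ) * (P₁.2 : ℝ) ^ b| := abs_add_le _ _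
      _ = (α.natAbs : ℝ) * (P₁.1 : ℝ) ^ a + (β.natAbs : ℝ) * (P₁.2 : ℝ) ^ b := by
        rw [abs_mul, abs_mul, e1, e2, abs_of_nonneg (by positivity : (0 : ℝ) ≤ (P₁.1 : ℝ) ^ a),
          abs_of_nonneg (by positivity : (0 : ℝ) ≤ (P₁.2 : ℝ) ^ b)]
      _ ≤ (α.natAbs : ℝ) * N + (β.natAbs : ℝ) * N :=
        add_le_add (mul_le_mul_of_nonneg_left (hs P₁ hP₁).fst (by positivity))
          (mul_le_mul_of_nonneg_left (hs P₁ hP₁).snd (by positivity))
      _ ≤ _ := by
        rw [hc₁]; push_cast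
        nlinarith [mul_nonneg ha0.le hN0.le, mul_nonneg hb0.le hN0.le]
  -- the prime
  have hmT : |m| < (T : ℤ) ^ k := by
    have h7 : (c₁ : ℝ) * N < (T : ℝ) ^ k := by
      have h8 : N ^ (1 / ((a : ℝ) * b)) < T := by
        refine lt_of_lt_of_le ?_ hTge
        have hc2 : (1 : ℝ) < c₁ := by
          have : 1 < c₁ := by
            have := Int.natAbs_pos.2 hα
            omega
          exact_mod_cast this
        have hNgt : 1 < N :=
          lt_of_lt_of_le (one_lt_pow₀ hc2 (Nat.mul_pos ha hb).ne') hN1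
        apply Real.rpow_lt_rpow_of_exponent_lt hNgt
        rw [hθ]
        linarith
      have h9 : (c₁ : ℝ) ≤ N ^ (1 / ((a : ℝ) * b)) := by
        have := root_bound (a := a * b) (Nat.mul_pos ha hb) (Nat.cast_nonneg c₁) hN1
        push_cast at this
        exact this
      have h10 : (N ^ (1 / ((a : ℝ) * b))) ^ (a * b) = N := by
        rw [← Real.rpow_natCast, ← Real.rpow_mul hN0.le]
        push_cast
        rw [one_div_mul_cancel (by positivity), Real.rpow_one]
      calc (c₁ : ℝ) * N ≤ N ^ (1 / ((a : ℝ) * b)) * (N ^ (1 / ((a : ℝ) * b))) ^ (a * b) := by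
            rw [h10]
            exact mul_le_mul_of_nonneg_right h9 hN0.le
        _ = (N ^ (1 / ((a : ℝ) * b))) ^ k := by rw [hk, pow_succ']
        _ < (T : ℝ) ^ k := pow_lt_pow_left₀ h8 (by positivity) (by omega)
    have h11 : |(m : ℝ)| < (T : ℝ) ^ k := lt_of_le_of_lt hmle h7
    exact_mod_cast h11
  obtain ⟨p, hp, hpT, hpT', hpm⟩ := exists_prime_not_dvd k T m hT1 hm hmT
  have : Fact p.Prime := ⟨hp⟩
  have hpi : Prime (p : ℤ) := Nat.prime_iff_prime_int.1 hp
  have hpN : N ^ θ ≤ (p : ℝ) := hTge.trans (by exact_mod_cast hpT.le)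
  have hcp : c₁ < p := by omega
  have hdα : ¬ (p : ℤ) ∣ α := by
    intro h
    have := Nat.le_of_dvd (Int.natAbs_pos.2 hα) (Int.natCast_dvd.1 h)
    omega
  have hdβ : ¬ (p : ℤ) ∣ β := by
    intro h
    have := Nat.le_of_dvd (Int.natAbs_pos.2 hβ) (Int.natCast_dvd.1 h)
    omega
  have hda : ¬ (p : ℤ) ∣ a := by
    intro h
    have := Nat.le_of_dvd (by omega) (Int.natCast_dvd_natCast.1 h)
    omega
  have hdb : ¬ (p : ℤ) ∣ b := by
    intro h
    have := Nat.le_of_dvd (by omega) (Int.natCast_dvd_natCast.1 h)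
    omega
  -- classes
  let φ : ℕ × ℕ → ZMod p × ZMod p := fun P => ((P.1 : ZMod p), (P.2 : ZMod p))
  have hcl : (s.image φ).card ≤ p * a := by
    refine classes (b := b) (β := β) (m := m) ha hdα _ ?_
    intro q hq
    rw [Finset.mem_image] at hq
    obtain ⟨P, hP, rfl⟩ := hq
    have h12 := congrArg (fun z : ℤ => (z : ZMod p)) (hs P hP).eq
    simpa [φ] using h12
  have hfib : ∀ q ∈ s.image φ, (s.filter fun P => φ P = q).card ≤ K₂ := by
    intro q hq
    rw [Finset.mem_image] at hq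
    obtain ⟨P₀, hP₀, rfl⟩ := hq
    have hcong : ∀ P ∈ s.filter (fun P => φ P = φ P₀), (p : ℤ) ∣ (P.1 : ℤ) - P₀.1 ∧
        (p : ℤ) ∣ (P.2 : ℤ) - P₀.2 := by
      intro P hP
      rw [Finset.mem_filter] at hP
      have h13 := congrArg Prod.fst hP.2
      have h14 := congrArg Prod.snd hP.2
      simp only [φ] at h13 h14
      constructor
      · rw [← ZMod.intCast_zmod_eq_zero_iff_dvd]
        push_cast
        rw [h13, sub_self]
      · rw [← ZMod.intCast_zmod_eq_zero_iff_dvd]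
        push_cast
        rw [h14, sub_self]
    by_cases hy : (p : ℤ) ∣ P₀.2
    · have hx : ¬ (p : ℤ) ∣ P₀.1 := by
        intro hx
        apply hpm
        rw [← (hs P₀ hP₀).eq]
        exact dvd_add (Dvd.dvd.mul_left (hx.trans (dvd_pow_self _ (by omega))) _)
          (Dvd.dvd.mul_left (hy.trans (dvd_pow_self _ (by omega))) _)
      have hu : ¬ (p : ℤ) ∣ a * α * (P₀.1 : ℤ) := by
        intro h
        rcases hpi.dvd_or_dvd h with h | h
        · rcases hpi.dvd_or_dvd h with h | h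
          · exact hda h
          · exact hdα h
        · exact hx h
      have h15 := fibre (a := b) (b := a) (L := L') hb ha hβ hα hm hp N
        (hL' N p ((le_max_right _ _).trans ((le_max_left _ _).trans hbig)) (by
          rw [mul_comm (b : ℝ)]; exact hpN))
        ((s.filter fun P => φ P = φ P₀).map (Equiv.prodComm ℕ ℕ).toEmbedding) (by
          intro Q hQ
          rw [Finset.mem_map] at hQ
          obtain ⟨P, hP, rfl⟩ := hQ
          exact (hs P (Finset.mem_filter.1 hP).1).swap) P₀.2 P₀.1 hu (by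
          intro Q hQ
          rw [Finset.mem_map] at hQ
          obtain ⟨P, hP, rfl⟩ := hQ
          exact ⟨(hcong P hP).2, (hcong P hP).1⟩)
      rw [Finset.card_map] at h15
      rw [hK₂]
      omega
    · have hu : ¬ (p : ℤ) ∣ b * β * (P₀.2 : ℤ) := by
        intro h
        rcases hpi.dvd_or_dvd h with h | h
        · rcases hpi.dvd_or_dvd h with h | h
          · exact hdb h
          · exact hdβ h
        · exact hy h
      have h15 := fibre (L := L) ha hb hα hβ hm hp N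
        (hL N p ((le_max_left _ _).trans ((le_max_left _ _).trans hbig)) hpN)
        (s.filter fun P => φ P = φ P₀) (fun P hP => hs P (Finset.mem_filter.1 hP).1)
        P₀.1 P₀.2 hu hcong
      rw [hK₂]
      omega
  have hcard : s.card ≤ p * a * K₂ := by
    rw [Finset.card_eq_sum_card_image φ s]
    refine (Finset.sum_le_card_nsmul _ _ K₂ hfib).trans ?_
    rw [smul_eq_mul]
    exact Nat.mul_le_mul_right _ hcl
  calc (s.card : ℝ) ≤ (p * a * K₂ : ℕ) := by exact_mod_cast hcard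
    _ = (a * K₂ : ℕ) * (p : ℝ) := by push_cast; ring
    _ ≤ (a * K₂ : ℕ) * (2 ^ k * T) := by
      apply mul_le_mul_of_nonneg_left _ (by positivity)
      exact_mod_cast hpT'
    _ ≤ (a * K₂ : ℕ) * (2 ^ k * ((2 + c₁) * N ^ θ)) := by gcongr
    _ = ((a * K₂ : ℕ) * (2 ^ k * (2 + c₁))) * N ^ θ := by ring
    _ ≤ _ := by
      apply mul_le_mul_of_nonneg_right _ (by positivity)
      have : (0 : ℝ) ≤ (N₁ + 1) ^ 2 := by positivity
      linarith

end Pool.Agent.Helper54.DC
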