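import Pool.Agent.Helper54.DC.Cnt

/-!
Products of small spread; the classification of the degrees of a solution.
-/

set_option autoImplicit false

namespace Pool.Agent.Helper54.DC

open Finset

/-- `W` is a product of degree `n`, base `b` and spread `s`, and `s² ≤ M b` -/
def Rep (M : ℝ) (W n b s : ℕ) : Prop :=
  ∃ x : Fin n → ℕ, 0 < b ∧ (∀ i, b ≤ x i ∧ x i ≤ b + s) ∧ (∃ i, x i = b) ∧ (∃ i, x i = b + s) ∧
    (∏ i, x i) = W ∧ (s : ℝ) ^ 2 / (b : ℝ) ≤ M

theorem Rep.pow {M : ℝ} {W n b : ℕ} (h : Rep M W n b 0) : W = b ^ n := by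
  obtain ⟨x, hb, hx, -, -, hW, -⟩ := h
  rw [← hW]
  have : ∀ i, x i = b := fun i => by have := hx i; omega
  simp [this]

theorem Rep.ty {M : ℝ} {M' W n b s : ℕ} (hM : M ≤ (M' : ℝ) ^ 2) (h : Rep M W n b s)
    (hs : s + 1 < n) : Ty M' (if b = 1 then 0 else n) W := by
  obtain ⟨x, hb, hx, -, -, hW, hsb⟩ := h
  have hb0 : (0 : ℝ) < b := by exact_mod_cast hb
  have hb1 : (1 : ℝ) ≤ b := by exact_mod_cast hb
  have hsM : s ≤ M' * b := by
    have h1 : (s : ℝ) ^ 2 ≤ ((M' : ℝ) * b) ^ 2 := by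
      rw [div_le_iff₀ hb0] at hsb
      calc (s : ℝ) ^ 2 ≤ M * b := hsb
        _ ≤ (M' : ℝ) ^ 2 * b := mul_le_mul_of_nonneg_right hM hb0.le
        _ ≤ (M' : ℝ) ^ 2 * (b * b) := by
          apply mul_le_mul_of_nonneg_left _ (by positivity)
          nlinarith
        _ = _ := by ring
    have h2 : (s : ℝ) ≤ (M' : ℝ) * b := (sq_le_sq₀ (by positivity) (by positivity)).1 h1
    exact_mod_cast h2
  have hW0 : W ≠ 0 := by
    rw [← hW]
    exact Finset.prod_ne_zero_iff.2 fun i _ => by have := hx i; omega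
  refine ⟨hW0, ?_⟩
  have hprime : ∀ p ∈ W.primeFactors, p.Prime ∧ ∃ i, p ∣ x i := by
    intro p hp
    have hpp := Nat.prime_of_mem_primeFactors hp
    have hd := Nat.dvd_of_mem_primeFactors hp
    rw [← hW] at hd
    obtain ⟨i, _, hi⟩ := (Prime.dvd_finsetProd_iff hpp.prime _).1 hd
    exact ⟨hpp, i, hi⟩
  by_cases h1 : b = 1
  · rw [if_pos h1, if_pos rfl]
    intro p hp
    obtain ⟨hpp, i, hi⟩ := hprime p hp
    rw [Nat.mem_primeFactors]
    refine ⟨hpp, ?_, Nat.factorial_ne_zero _⟩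
    rw [hpp.dvd_factorial]
    have h2 := hx i
    have h3 := Nat.le_of_dvd (by omega) hi
    rw [h1] at h2 hsM
    omega
  · rw [if_neg h1, if_neg (by omega)]
    refine ⟨b, s, by omega, hs, by nlinarith, ?_, ?_⟩
    · rw [← hW]
      calc b ^ n = ∏ _i : Fin n, b := by simp
        _ ≤ _ := Finset.prod_le_prod' fun i _ => (hx i).1
    · intro p hp
      obtain ⟨hpp, i, hi⟩ := hprime p hp
      rw [Nat.mem_primeFactors]
      refine ⟨hpp, ?_, Finset.prod_ne_zero_iff.2 fun j _ => by omega⟩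
      have h2 := hx i
      refine hi.trans ?_
      have h3 : x i = b + (x i - b) := by omega
      rw [h3]
      exact Finset.dvd_prod_of_mem (fun j => b + j) (Finset.mem_range.2 (by omega))

theorem sorted (a b c x y z : ℕ) (hx : x + 1 < a) (hy : y + 1 < b) (hz : z + 1 < c)
    (hab : a ≤ b) (hbc : b ≤ c)
    (h : (x + 1) * b * c + (y + 1) * a * c + (z + 1) * a * b < a * b * c) :
    30 * (b + c) ≤ 11 * (b * c) ∨
    (x = 0 ∧ y = 0 ∧ b ≤ 29 ∧ 30 * (a * b + c) ≤ 11 * (a * b * c)) ∨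
    (x = 0 ∧ z = 0 ∧ c ≤ 29 ∧ 30 * (a * c + b) ≤ 11 * (a * b * c)) ∨
    (y = 0 ∧ z = 0 ∧ c ≤ 29 ∧ 30 * (b * c + a) ≤ 11 * (a * b * c)) := by
  by_cases hb : 6 ≤ b
  · left
    nlinarith
  · have h2 : 2 ≤ a := by omega
    have hb5 : b ≤ 5 := by omega
    have hb2 : 2 ≤ b := by omega
    have ha5 : a ≤ 5 := by omega
    interval_cases b <;> interval_cases a <;> first
      | omega
      | (have hx3 : x ≤ 3 := by omega
         have hy3 : y ≤ 3 := by omega
         interval_cases x <;> interval_cases y <;> omega)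

/-- the condition on the degrees, for natural numbers -/
theorem nat_cond {a b c x y z : ℕ} (ha : 0 < a) (hb : 0 < b) (hc : 0 < c)
    (h : (1 + (x : ℝ)) / a + (1 + (y : ℝ)) / b + (1 + (z : ℝ)) / c < 1) :
    (x + 1) * b * c + (y + 1) * a * c + (z + 1) * a * b < a * b * c := by
  have ha0 : (0 : ℝ) < a := by exact_mod_cast ha
  have hb0 : (0 : ℝ) < b := by exact_mod_cast hb
  have hc0 : (0 : ℝ) < c := by exact_mod_cast hc
  have h1 : ((x : ℝ) + 1) * b * c + (y + 1) * a * c + (z + 1) * a * b < a * b * c := by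
    have h2 := mul_lt_mul_of_pos_right h (mul_pos (mul_pos ha0 hb0) hc0)
    have h3 : ((1 + (x : ℝ)) / a + (1 + (y : ℝ)) / b + (1 + (z : ℝ)) / c) * (a * b * c) =
        ((x : ℝ) + 1) * b * c + (y + 1) * a * c + (z + 1) * a * b := by
      field_simp
      ring
    rw [h3] at h2
    linarith
  exact_mod_cast h1

theorem real_pair {b c : ℕ} (hb : 0 < b) (hc : 0 < c) (h : 30 * (b + c) ≤ 11 * (b * c)) :
    (b : ℝ)⁻¹ + (c : ℝ)⁻¹ ≤ 11 / 30 := by
  have hb0 : (0 : ℝ) < b := by exact_mod_cast hb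
  have hc0 : (0 : ℝ) < c := by exact_mod_cast hc
  have h1 : (30 : ℝ) * (b + c) ≤ 11 * (b * c) := by exact_mod_cast h
  rw [inv_add_inv hb0.ne' hc0.ne', div_le_div_iff₀ (by positivity) (by norm_num)]
  linarith

theorem real_bp {a b c : ℕ} (ha : 0 < a) (hb : 0 < b) (hc : 0 < c)
    (h : 30 * (a * b + c) ≤ 11 * (a * b * c)) :
    (c : ℝ)⁻¹ + 1 / ((a : ℝ) * b) ≤ 11 / 30 := by
  have ha0 : (0 : ℝ) < a := by exact_mod_cast ha
  have hb0 : (0 : ℝ) < b := by exact_mod_cast hb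
  have hc0 : (0 : ℝ) < c := by exact_mod_cast hc
  have h1 : (30 : ℝ) * (a * b + c) ≤ 11 * (a * b * c) := by exact_mod_cast h
  rw [one_div, inv_add_inv hc0.ne' (by positivity), div_le_div_iff₀ (by positivity) (by norm_num)]
  linarith

theorem third : ∀ i k : Fin 3, ∃ j : Fin 3, j ≠ i ∧ j ≠ k := by decide

/-- the type of a factorisation -/
def ty (n b : Fin 3 → ℕ) (i : Fin 3) : ℕ := if b i = 1 then 0 else n i

theorem classify (n b s : Fin 3 → ℕ) (hn : ∀ i, 0 < n i)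
    (h : ∑ i, (1 + (s i : ℝ)) / (n i : ℝ) < 1) :
    ∃ i j k : Fin 3, i ≠ j ∧ i ≠ k ∧ j ≠ k ∧
      (((ty n b i : ℝ))⁻¹ + ((ty n b j : ℝ))⁻¹ ≤ 11 / 30 ∨
        (s i = 0 ∧ b i ≠ 1 ∧ n i ≤ 29 ∧ s j = 0 ∧ b j ≠ 1 ∧ n j ≤ 29 ∧
          ((ty n b k : ℝ))⁻¹ + 1 / ((n i : ℝ) * n j) ≤ 11 / 30)) := by
  have hn0 : ∀ i, (0 : ℝ) < n i := fun i => by exact_mod_cast hn i
  have hpos : ∀ i, 0 ≤ (1 + (s i : ℝ)) / (n i : ℝ) := fun i => by
    have := hn0 i
    positivity
  have hlt : ∀ i, s i + 1 < n i := by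
    intro i
    have h1 : (1 + (s i : ℝ)) / (n i : ℝ) < 1 :=
      (Finset.single_le_sum (fun j _ => hpos j) (Finset.mem_univ i)).trans_lt h
    rw [div_lt_one (hn0 i)] at h1
    have h2 : (s i : ℝ) + 1 < n i := by linarith
    exact_mod_cast h2
  have htyle : ∀ i, ((ty n b i : ℝ))⁻¹ ≤ (n i : ℝ)⁻¹ := by
    intro i
    unfold ty
    split_ifs
    · rw [Nat.cast_zero, inv_zero]
      exact inv_nonneg.2 (hn0 i).le
    · exact le_rfl
  by_cases hb : ∃ k, b k = 1
  · obtain ⟨k, hk⟩ := hb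
    have hk0 : ((ty n b k : ℝ))⁻¹ = 0 := by
      unfold ty
      rw [if_pos hk, Nat.cast_zero, inv_zero]
    -- another one of degree at least 3
    have h3 : ∃ i, i ≠ k ∧ 3 ≤ n i := by
      by_contra hcon
      push Not at hcon
      have h4 : ∀ i, i ≠ k → (1 : ℝ) / 2 ≤ (1 + (s i : ℝ)) / (n i : ℝ) := by
        intro i hi
        have h5 := hcon i hi
        have h6 := hlt i
        have h7 : n i = 2 := by omega
        have h8 : s i = 0 := by omega
        rw [h7, h8]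
        norm_num
      have h9 : ∀ i, i ≠ k → i ≠ k := fun i hi => hi
      rw [Fin.sum_univ_three] at h
      have p0 := hpos 0
      have p1 := hpos 1
      have p2 := hpos 2
      have q0 := h4 0
      have q1 := h4 1
      have q2 := h4 2
      fin_cases k
      · have := q1 (by decide)
        have := q2 (by decide)
        linarith
      · have := q0 (by decide)
        have := q2 (by decide)
        linarith
      · have := q0 (by decide)
        have := q1 (by decide)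
        linarith
    obtain ⟨i, hik, hi⟩ := h3
    obtain ⟨j, hj1, hj2⟩ : ∃ j : Fin 3, j ≠ i ∧ j ≠ k := third i k
    refine ⟨i, k, j, hik, hj1.symm, hj2.symm, Or.inl ?_⟩
    rw [hk0, add_zero]
    refine (htyle i).trans ?_
    have : (3 : ℝ) ≤ n i := by exact_mod_cast hi
    calc (n i : ℝ)⁻¹ ≤ (3 : ℝ)⁻¹ := inv_anti₀ (by norm_num) this
      _ ≤ 11 / 30 := by norm_num
  · push Not at hb
    have hty : ∀ i, ty n b i = n i := fun i => by
      unfold ty
      rw [if_neg (hb i)]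
    set σ := Tuple.sort n with hσ
    have hmono : Monotone (n ∘ σ) := Tuple.monotone_sort n
    have h01 : n (σ 0) ≤ n (σ 1) := hmono (by decide)
    have h12 : n (σ 1) ≤ n (σ 2) := hmono (by decide)
    have hsum : (1 + (s (σ 0) : ℝ)) / n (σ 0) + (1 + (s (σ 1) : ℝ)) / n (σ 1) +
        (1 + (s (σ 2) : ℝ)) / n (σ 2) < 1 := by
      rw [← Equiv.sum_comp σ, Fin.sum_univ_three] at h
      exact h
    have hnat := nat_cond (hn (σ 0)) (hn (σ 1)) (hn (σ 2)) hsum
    have e01 : σ 0 ≠ σ 1 := σ.injective.ne (by decide)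
    have e02 : σ 0 ≠ σ 2 := σ.injective.ne (by decide)
    have e12 : σ 1 ≠ σ 2 := σ.injective.ne (by decide)
    rcases sorted _ _ _ _ _ _ (hlt (σ 0)) (hlt (σ 1)) (hlt (σ 2)) h01 h12 hnat with
      h1 | ⟨hx, hy, hb29, h1⟩ | ⟨hx, hz, hc29, h1⟩ | ⟨hy, hz, hc29, h1⟩
    · refine ⟨σ 1, σ 2, σ 0, e12, e01.symm, e02.symm, Or.inl ?_⟩
      rw [hty, hty]
      exact real_pair (hn _) (hn _) h1
    · refine ⟨σ 0, σ 1, σ 2, e01, e02, e12, Or.inr ⟨hx, hb _, h01.trans hb29, hy, hb _, hb29, ?_⟩⟩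
      rw [hty]
      exact real_bp (hn _) (hn _) (hn _) h1
    · refine ⟨σ 0, σ 2, σ 1, e02, e01, e12.symm, Or.inr ⟨hx, hb _,
        (h01.trans h12).trans hc29, hz, hb _, hc29, ?_⟩⟩
      rw [hty]
      refine real_bp (hn _) (hn _) (hn _) (h1.trans (le_of_eq ?_))
      ring
    · refine ⟨σ 1, σ 2, σ 0, e12, e01.symm, e02.symm, Or.inr ⟨hy, hb _,
        h12.trans hc29, hz, hb _, hc29, ?_⟩⟩
      rw [hty]
      refine real_bp (hn _) (hn _) (hn _) (h1.trans (le_of_eq ?_))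
      ring

end Pool.Agent.Helper54.DC
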