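import Pool.Agent.Helper54.DC.Main

/-!
The classification of the degrees of a solution with `∑ (1 + s) / n ≤ F`.
-/

set_option autoImplicit false

namespace Pool.Agent.Helper54.DC

open Finset

theorem realF {p q r F θ : ℝ} {x y z : ℕ} (hr : 0 < r) (hrq : r ≤ q) (hqp : q ≤ p) (hF : F ≤ 1)
    (h : ((x : ℝ) + 1) * p + ((y : ℝ) + 1) * q + ((z : ℝ) + 1) * r ≤ F)
    (h1 : 2 * F / 5 ≤ θ) (h2 : (3 * F + F ^ 2) / 9 ≤ θ) :
    q + r ≤ θ ∨ (x = 0 ∧ y = 0 ∧ r + p * q ≤ θ) ∨ (x = 0 ∧ z = 0 ∧ 1 ≤ y ∧ q + p * r ≤ θ) ∨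
      (y = 0 ∧ z = 0 ∧ 1 ≤ x ∧ p + q * r ≤ θ) := by
  have hq : 0 < q := by linarith
  have hp : 0 < p := by linarith
  have ex : ∀ m : ℕ, 1 ≤ m → (1 : ℝ) ≤ m := fun m hm => by exact_mod_cast hm
  have nx : ∀ m : ℕ, (0 : ℝ) ≤ m := fun m => Nat.cast_nonneg m
  have mx := mul_nonneg (nx x) hp.le
  have my := mul_nonneg (nx y) hq.le
  have mz := mul_nonneg (nx z) hr.le
  have hsum : p + q + r ≤ F := by nlinarith
  by_cases hle : q + r ≤ θ
  · exact Or.inl hle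
  push Not at hle
  right
  have hlow : 2 * F / 5 < q + r := lt_of_le_of_lt h1 hle
  rcases Nat.eq_zero_or_pos x with hx | hx
  · rcases Nat.eq_zero_or_pos y with hy | hy
    · left
      refine ⟨hx, hy, ?_⟩
      have hr3 : r ≤ F / 3 := by linarith
      nlinarith [sq_nonneg (p - q), mul_nonneg (by linarith : (0 : ℝ) ≤ F / 3 - r)
        (by linarith : (0 : ℝ) ≤ 12 - 5 * F + 3 * r), sq_nonneg (F - r - p - q),
        mul_nonneg (by linarith : (0 : ℝ) ≤ F - r - p - q) (by linarith : (0 : ℝ) ≤ F - r + p + q)]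
    · rcases Nat.eq_zero_or_pos z with hz | hz
      · right; left
        refine ⟨hx, hz, hy, ?_⟩
        have hmy : q ≤ y * q := by nlinarith [ex y hy]
        have hs2 : p + 2 * q + r ≤ F := by nlinarith
        have hq3 : q < 3 * F / 10 := by linarith
        have hq5 : F < 6 * q := by linarith
        nlinarith [sq_nonneg (p - r), mul_pos (by linarith : (0 : ℝ) < 6 * q - F)
          (by linarith : (0 : ℝ) < 5 * F - 6 * q),
          mul_nonneg (by linarith : (0 : ℝ) ≤ F - 2 * q - p - r)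
            (by linarith : (0 : ℝ) ≤ F - 2 * q + p + r)]
      · exfalso
        have hmy : q ≤ y * q := by nlinarith [ex y hy]
        have hmz : r ≤ z * r := by nlinarith [ex z hz]
        nlinarith
  · have hmx : p ≤ x * p := by nlinarith [ex x hx]
    rcases Nat.eq_zero_or_pos y with hy | hy
    · rcases Nat.eq_zero_or_pos z with hz | hz
      · right; right
        refine ⟨hy, hz, hx, ?_⟩
        have hs2 : 2 * p + q + r ≤ F := by nlinarith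
        have hp3 : p < 3 * F / 10 := by linarith
        have hp5 : F < 6 * p := by linarith
        nlinarith [sq_nonneg (q - r), mul_pos (by linarith : (0 : ℝ) < 6 * p - F)
          (by linarith : (0 : ℝ) < 5 * F - 6 * p),
          mul_nonneg (by linarith : (0 : ℝ) ≤ F - 2 * p - q - r)
            (by linarith : (0 : ℝ) ≤ F - 2 * p + q + r)]
      · exfalso
        have hmz : r ≤ z * r := by nlinarith [ex z hz]
        nlinarith
    · exfalso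
      have hmy : q ≤ y * q := by nlinarith [ex y hy]
      nlinarith

theorem classifyF (F θ : ℝ) (hF : F ≤ 1) (h1 : 2 * F / 5 ≤ θ) (h2 : (3 * F + F ^ 2) / 9 ≤ θ)
    (B : ℕ) (hB : 15 / F ≤ B) (n b s : Fin 3 → ℕ) (hn : ∀ i, 0 < n i)
    (h : ∑ i, (1 + (s i : ℝ)) / (n i : ℝ) ≤ F) :
    ∃ i j k : Fin 3, i ≠ j ∧ i ≠ k ∧ j ≠ k ∧
      (((ty n b i : ℝ))⁻¹ + ((ty n b j : ℝ))⁻¹ ≤ θ ∨
        (s i = 0 ∧ b i ≠ 1 ∧ n i ≤ B ∧ s j = 0 ∧ b j ≠ 1 ∧ n j ≤ B ∧
          ((ty n b k : ℝ))⁻¹ + 1 / ((n i : ℝ) * n j) ≤ θ)) := by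
  have hn0 : ∀ i, (0 : ℝ) < n i := fun i => by exact_mod_cast hn i
  have hi0 : ∀ i, 0 < (n i : ℝ)⁻¹ := fun i => inv_pos.2 (hn0 i)
  have hs0 : ∀ i, 0 ≤ (s i : ℝ) * (n i : ℝ)⁻¹ := fun i => mul_nonneg (Nat.cast_nonneg _) (hi0 i).le
  have hterm : ∀ i, (1 + (s i : ℝ)) / (n i : ℝ) = ((s i : ℝ) + 1) * (n i : ℝ)⁻¹ := fun i => by
    rw [div_eq_mul_inv, add_comm]
  simp only [hterm] at h
  have hbound : ∀ i, F / 15 < (n i : ℝ)⁻¹ → n i ≤ B := by
    intro i hi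
    have hFpos : 0 < F := by
      refine lt_of_lt_of_le ?_ h
      apply Finset.sum_pos _ Finset.univ_nonempty
      intro j _
      have := hi0 j
      have := hs0 j
      nlinarith
    have h3 : (n i : ℝ) ≤ B := by
      refine le_trans ?_ hB
      rw [le_div_iff₀ hFpos]
      have h4 : F / 15 * (n i : ℝ) < (n i : ℝ)⁻¹ * n i := mul_lt_mul_of_pos_right hi (hn0 i)
      rw [inv_mul_cancel₀ (hn0 i).ne'] at h4
      linarith
    exact_mod_cast h3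
  have hprod : ∀ i j, 1 / ((n i : ℝ) * n j) = (n i : ℝ)⁻¹ * (n j : ℝ)⁻¹ := fun i j => by
    rw [one_div, mul_inv]
  by_cases hb : ∃ k, b k = 1
  · obtain ⟨k, hk⟩ := hb
    have hty1 : ∀ i, b i = 1 → ((ty n b i : ℝ))⁻¹ = 0 := fun i hi => by
      unfold ty
      rw [if_pos hi, Nat.cast_zero, inv_zero]
    have htyle : ∀ i, ((ty n b i : ℝ))⁻¹ ≤ (n i : ℝ)⁻¹ := by
      intro i
      unfold ty
      split_ifs
      · rw [Nat.cast_zero, inv_zero]
        exact (hi0 i).le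
      · exact le_rfl
    -- the two other indices
    obtain ⟨i, j, hij, hik, hjk, hle⟩ : ∃ i j : Fin 3, i ≠ j ∧ i ≠ k ∧ j ≠ k ∧
        (n i : ℝ)⁻¹ ≤ (n j : ℝ)⁻¹ := by
      obtain ⟨i, hi, -⟩ := third k k
      obtain ⟨j, hj, hjk⟩ := third i k
      rcases le_total ((n i : ℝ)⁻¹) ((n j : ℝ)⁻¹) with hle | hle
      · exact ⟨i, j, hj.symm, hi, hjk, hle⟩
      · exact ⟨j, i, hj, hjk, hi, hle⟩
    have hsum3 : ((s i : ℝ) + 1) * (n i : ℝ)⁻¹ + ((s j : ℝ) + 1) * (n j : ℝ)⁻¹ ≤ F := by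
      rw [univ3 i j k hij hik hjk, Finset.sum_insert (by simp [hij, hik]),
        Finset.sum_insert (by simp [hjk]), Finset.sum_singleton] at h
      have := hi0 k
      have := hs0 k
      nlinarith
    by_cases hpi : (n i : ℝ)⁻¹ ≤ θ
    · refine ⟨i, k, j, hik, hij, hjk.symm, Or.inl ?_⟩
      rw [hty1 k hk, add_zero]
      exact (htyle i).trans hpi
    · push Not at hpi
      have hlow : 2 * F / 5 < (n i : ℝ)⁻¹ := lt_of_le_of_lt h1 hpi
      have hsi : s i = 0 := by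
        by_contra hne
        have h3 : (1 : ℝ) ≤ s i := by exact_mod_cast Nat.one_le_iff_ne_zero.2 hne
        have h4 : (n i : ℝ)⁻¹ ≤ (s i : ℝ) * (n i : ℝ)⁻¹ := by
          have := hi0 i
          nlinarith
        have := hs0 j
        have := hi0 i
        nlinarith
      have hsj : s j = 0 := by
        by_contra hne
        have h3 : (1 : ℝ) ≤ s j := by exact_mod_cast Nat.one_le_iff_ne_zero.2 hne
        have h4 : (n j : ℝ)⁻¹ ≤ (s j : ℝ) * (n j : ℝ)⁻¹ := by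
          have := hi0 j
          nlinarith
        have := hs0 i
        have := hi0 i
        nlinarith
      rw [hsi, hsj] at hsum3
      simp only [Nat.cast_zero, zero_add, one_mul] at hsum3
      have hFpos : 0 < F := by
        have := hi0 i
        have := hi0 j
        linarith
      by_cases hbi : b i = 1
      · refine ⟨i, k, j, hik, hij, hjk.symm, Or.inl ?_⟩
        rw [hty1 k hk, hty1 i hbi, add_zero]
        linarith
      by_cases hbj : b j = 1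
      · refine ⟨j, k, i, hjk, hij.symm, hik.symm, Or.inl ?_⟩
        rw [hty1 k hk, hty1 j hbj, add_zero]
        linarith
      refine ⟨i, j, k, hij, hik, hjk, Or.inr ⟨hsi, hbi, hbound i (by linarith), hsj, hbj,
        hbound j (by linarith), ?_⟩⟩
      rw [hty1 k hk, zero_add, hprod]
      have := hi0 i
      have := hi0 j
      nlinarith [sq_nonneg ((n i : ℝ)⁻¹ - (n j : ℝ)⁻¹)]
  · push Not at hb
    have hty : ∀ i, ty n b i = n i := fun i => by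
      unfold ty
      rw [if_neg (hb i)]
    set σ := Tuple.sort n with hσ
    have hmono : Monotone (n ∘ σ) := Tuple.monotone_sort n
    have h01 : n (σ 0) ≤ n (σ 1) := hmono (by decide)
    have h12 : n (σ 1) ≤ n (σ 2) := hmono (by decide)
    have r01 : (n (σ 1) : ℝ)⁻¹ ≤ (n (σ 0) : ℝ)⁻¹ := inv_anti₀ (hn0 _) (by exact_mod_cast h01)
    have r12 : (n (σ 2) : ℝ)⁻¹ ≤ (n (σ 1) : ℝ)⁻¹ := inv_anti₀ (hn0 _) (by exact_mod_cast h12)
    have hsum : ((s (σ 0) : ℝ) + 1) * (n (σ 0) : ℝ)⁻¹ + ((s (σ 1) : ℝ) + 1) * (n (σ 1) : ℝ)⁻¹ +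
        ((s (σ 2) : ℝ) + 1) * (n (σ 2) : ℝ)⁻¹ ≤ F := by
      rw [← Equiv.sum_comp σ, Fin.sum_univ_three] at h
      exact h
    have e01 : σ 0 ≠ σ 1 := σ.injective.ne (by decide)
    have e02 : σ 0 ≠ σ 2 := σ.injective.ne (by decide)
    have e12 : σ 1 ≠ σ 2 := σ.injective.ne (by decide)
    by_cases hle : (n (σ 1) : ℝ)⁻¹ + (n (σ 2) : ℝ)⁻¹ ≤ θ
    · refine ⟨σ 1, σ 2, σ 0, e12, e01.symm, e02.symm, Or.inl ?_⟩
      rw [hty, hty]
      exact hle
    have hgt := not_le.1 hle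
    have hlow : 2 * F / 5 < (n (σ 1) : ℝ)⁻¹ + (n (σ 2) : ℝ)⁻¹ := lt_of_le_of_lt h1 hgt
    have hq1 := hi0 (σ 0)
    have hq2 := hi0 (σ 1)
    have hq3 := hi0 (σ 2)
    have g0 := hs0 (σ 0)
    have g1 := hs0 (σ 1)
    have g2 := hs0 (σ 2)
    have hFpos : 0 < F := by nlinarith
    rcases realF hq3 r12 r01 hF hsum h1 h2 with h3 | ⟨hx, hy, h3⟩ | ⟨hx, hz, hy1, h3⟩ |
      ⟨hy, hz, hx1, h3⟩
    · exact absurd h3 hle
    · have hb1 : n (σ 1) ≤ B := hbound _ (by linarith)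
      refine ⟨σ 0, σ 1, σ 2, e01, e02, e12, Or.inr ⟨hx, hb _, h01.trans hb1, hy, hb _, hb1, ?_⟩⟩
      rw [hty, hprod]
      exact h3
    · have h4 : (n (σ 1) : ℝ)⁻¹ ≤ (s (σ 1) : ℝ) * (n (σ 1) : ℝ)⁻¹ := by
        have : (1 : ℝ) ≤ s (σ 1) := by exact_mod_cast hy1
        nlinarith
      have hb2 : n (σ 2) ≤ B := hbound _ (by nlinarith)
      refine ⟨σ 0, σ 2, σ 1, e02, e01, e12.symm, Or.inr ⟨hx, hb _,
        (h01.trans h12).trans hb2, hz, hb _, hb2, ?_⟩⟩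
      rw [hty, hprod]
      exact h3
    · have h4 : (n (σ 0) : ℝ)⁻¹ ≤ (s (σ 0) : ℝ) * (n (σ 0) : ℝ)⁻¹ := by
        have : (1 : ℝ) ≤ s (σ 0) := by exact_mod_cast hx1
        nlinarith
      have hb2 : n (σ 2) ≤ B := hbound _ (by nlinarith)
      refine ⟨σ 1, σ 2, σ 0, e12, e01.symm, e02.symm, Or.inr ⟨hy, hb _,
        h12.trans hb2, hz, hb _, hb2, ?_⟩⟩
      rw [hty, hprod]
      exact h3

theorem mainF (a : Fin 3 → ℤ) (ha : ∀ i, a i ≠ 0) (M ε F : ℝ) (hε : 0 < ε) (hF : F < 1) (θ : ℝ)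
    (h1 : 2 * F / 5 ≤ θ) (h2 : (3 * F + F ^ 2) / 9 ≤ θ) : ∃ K : ℝ, 0 ≤ K ∧
    ∀ N : ℝ, 1 ≤ N → ∀ S : Finset (Fin 3 → ℕ),
      (∀ t ∈ S, ∑ x, a x * (t x : ℤ) = 0 ∧ (∀ x, (t x : ℝ) ≤ N) ∧ ∃ n b s : Fin 3 → ℕ,
        (∀ x, Rep M (t x) (n x) (b x) (s x)) ∧ ∑ x, (1 + (s x : ℝ)) / (n x : ℝ) ≤ F) →
      (S.card : ℝ) ≤ K * N ^ (θ + ε) :=
  main_gen a ha M ε hε ⌈15 / F⌉₊ θ (fun n s => ∑ x, (1 + (s x : ℝ)) / (n x : ℝ) ≤ F)
    (fun _ _ hn h x => lt_of_sum hn (lt_of_le_of_lt h hF) x)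
    (fun n b s hn h => classifyF F θ hF.le h1 h2 _ (Nat.le_ceil _) n b s hn h)

end Pool.Agent.Helper54.DC
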