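import Mathlib

/-!
The determinant method for `α x ^ a + β y ^ b = m`: zeros of an auxiliary polynomial on the curve.
-/

set_option autoImplicit false

namespace Pool.Agent.Helper54.DC

open Polynomial

/-- `h = (m - α X ^ a) / β` -/
noncomputable def hh (a : ℕ) (α β m : ℚ) : ℚ[X] := C β⁻¹ * (C m - C α * X ^ a)

theorem natDegree_hh (a : ℕ) (α β m : ℚ) : (hh a α β m).natDegree ≤ a := by
  unfold hh
  refine (natDegree_C_mul_le _ _).trans ((natDegree_sub_le _ _).trans (max_le (by simp) ?_))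
  exact (natDegree_C_mul_le _ _).trans (natDegree_X_pow_le _)

theorem coeff_hh {a : ℕ} (ha : 1 ≤ a) (α β m : ℚ) : (hh a α β m).coeff a = - (β⁻¹ * α) := by
  unfold hh
  rw [coeff_C_mul, coeff_sub, coeff_C_mul, coeff_X_pow_self, coeff_C_of_ne_zero (by omega)]
  ring

theorem natDegree_hh_pos {a : ℕ} (ha : 1 ≤ a) {α β : ℚ} (hα : α ≠ 0) (hβ : β ≠ 0) (m : ℚ) :
    0 < (hh a α β m).natDegree := by
  have h1 : (hh a α β m).coeff a ≠ 0 := by
    rw [coeff_hh ha]
    exact neg_ne_zero.2 (mul_ne_zero (inv_ne_zero hβ) hα)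
  have := le_natDegree_of_ne_zero h1
  omega

/-- the curve is irreducible -/
theorem irr {a b : ℕ} (ha : 1 ≤ a) (hb : 1 ≤ b) {α β m : ℚ} (hα : α ≠ 0) (hβ : β ≠ 0)
    (hm : m ≠ 0) : Irreducible (X ^ b - C (hh a α β m) : ℚ[X][X]) := by
  classical
  have hpos := natDegree_hh_pos ha hα hβ m
  have hne : hh a α β m ≠ 0 := fun h => by rw [h] at hpos; simp at hpos
  have hnu : ¬ IsUnit (hh a α β m) := fun h => by
    have := natDegree_eq_zero_of_isUnit h
    omega
  obtain ⟨π, hπ, hπd⟩ := WfDvdMonoid.exists_irreducible_factor hnu hne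
  have hpr : Prime π := hπ.prime
  have hsq : ¬ π ^ 2 ∣ hh a α β m := by
    rintro ⟨w, hw⟩
    have h1 : π ∣ derivative (hh a α β m) := by
      rw [hw, derivative_mul, derivative_pow]
      refine dvd_add ?_ ?_
      · refine Dvd.dvd.mul_right ?_ _
        refine Dvd.dvd.mul_right ?_ _
        exact Dvd.dvd.mul_left (by simp) _
      · exact Dvd.dvd.mul_right (dvd_pow_self _ (by norm_num)) _
    have h2 : derivative (hh a α β m) = C (- (β⁻¹ * α * a)) * X ^ (a - 1) := by
      unfold hh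
      simp only [derivative_C_mul, derivative_sub, derivative_C, derivative_X_pow, zero_sub]
      simp only [C_neg, C_mul]
      simp only [map_natCast]
      ring
    rw [h2] at h1
    have hc : (- (β⁻¹ * α * a)) ≠ 0 := by
      refine neg_ne_zero.2 (mul_ne_zero (mul_ne_zero (inv_ne_zero hβ) hα) ?_)
      exact_mod_cast (by omega : a ≠ 0)
    have h3 : π ∣ X := by
      rcases hpr.dvd_or_dvd h1 with h | h
      · exact absurd (isUnit_of_dvd_unit h (isUnit_C.2 hc.isUnit)) hπ.not_isUnit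
      · exact hpr.dvd_of_dvd_pow h
    have h4 : π ∣ C (β⁻¹ * m) := by
      have h5 : C (β⁻¹ * m) = hh a α β m + C (β⁻¹ * α) * X ^ a := by
        unfold hh
        simp only [C_mul]
        ring
      rw [h5]
      exact dvd_add hπd (Dvd.dvd.mul_left (h3.trans (dvd_pow_self _ (by omega))) _)
    exact hπ.not_isUnit (isUnit_of_dvd_unit h4
      (isUnit_C.2 (mul_ne_zero (inv_ne_zero hβ) hm).isUnit))
  have hmon : (X ^ b - C (hh a α β m) : ℚ[X][X]).Monic := monic_X_pow_sub_C _ (by omega)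
  have hdeg : (X ^ b - C (hh a α β m) : ℚ[X][X]).degree = b := degree_X_pow_sub_C (by omega) _
  refine irreducible_of_eisenstein_criterion (P := Ideal.span {π})
    ((Ideal.span_singleton_prime hpr.ne_zero).2 hpr) ?_ ?_ ?_ ?_ hmon.isPrimitive
  · rw [hmon.leadingCoeff]
    intro h
    exact hπ.not_isUnit (isUnit_of_dvd_one (Ideal.mem_span_singleton.1 h))
  · intro n hn
    rw [hdeg] at hn
    have hn' : n < b := by exact_mod_cast hn
    rw [Ideal.mem_span_singleton, coeff_sub, coeff_X_pow, if_neg (by omega), coeff_C]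
    split_ifs with h0
    · simpa using hπd
    · simp
  · rw [hdeg]
    exact_mod_cast hb
  · rw [Ideal.span_singleton_pow, Ideal.mem_span_singleton, coeff_sub, coeff_X_pow,
      if_neg (by omega), coeff_C_zero, zero_sub]
    intro h
    exact hsq ((dvd_neg).1 h)

/-- the matrix of the multiplication by `∑ g k Y ^ k` -/
noncomputable def mulM {b : ℕ} [NeZero b] (h : ℚ[X]) (g : Fin b → ℚ[X]) :
    Matrix (Fin b) (Fin b) ℚ[X] :=
  Matrix.of fun i j => if ((i - j : Fin b) : ℕ) + (j : ℕ) < b then g (i - j) else h * g (i - j)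

theorem mulM_spec {b : ℕ} [NeZero b] (h : ℚ[X]) (g : Fin b → ℚ[X]) {S : Type} [CommRing S]
    (f : ℚ[X] →+* S) (y : S) (hy : y ^ b = f h) (j : Fin b) :
    ∑ i, f (mulM h g i j) * y ^ (i : ℕ) = (∑ k, f (g k) * y ^ (k : ℕ)) * y ^ (j : ℕ) := by
  rw [Finset.sum_mul, ← Equiv.sum_comp (Equiv.addRight j)]
  refine Finset.sum_congr rfl fun k _ => ?_
  simp only [Equiv.coe_addRight, mulM, Matrix.of_apply, add_sub_cancel_right]
  rw [Fin.val_add_eq_ite, mul_assoc, ← pow_add]
  by_cases hk : (k : ℕ) + (j : ℕ) < b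
  · rw [if_pos hk, if_neg (by omega)]
  · rw [if_neg hk, if_pos (by omega), map_mul, ← hy, mul_comm (y ^ b), mul_assoc, ← pow_add]
    congr 2
    omega

theorem det_ne_zero {a b : ℕ} [NeZero b] (ha : 1 ≤ a) {α β m : ℚ} (hα : α ≠ 0)
    (hβ : β ≠ 0) (hm : m ≠ 0) (g : Fin b → ℚ[X]) (hg : g ≠ 0) :
    (mulM (hh a α β m) g).det ≠ 0 := by
  classical
  have hb : 1 ≤ b := Nat.one_le_iff_ne_zero.2 (NeZero.ne b)
  intro hdet
  obtain ⟨v, hv, hv0⟩ := Matrix.exists_mulVec_eq_zero_iff.2 hdet
  set F : ℚ[X][X] := X ^ b - C (hh a α β m) with hF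
  have hirr : Irreducible F := irr ha hb hα hβ hm
  have hmon : F.Monic := monic_X_pow_sub_C _ (by omega)
  have hdeg : F.natDegree = b := natDegree_X_pow_sub_C
  have hprime : Prime F := hirr.prime
  have hroot : (AdjoinRoot.root F) ^ b = AdjoinRoot.of F (hh a α β m) := by
    have h1 : AdjoinRoot.mk F (X ^ b - C (hh a α β m)) = 0 := by rw [← hF]; exact AdjoinRoot.mk_self
    rw [map_sub, map_pow, AdjoinRoot.mk_X, AdjoinRoot.mk_C, sub_eq_zero] at h1
    exact h1
  -- small polynomials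
  have small : ∀ w : Fin b → ℚ[X], AdjoinRoot.mk F (∑ k : Fin b, C (w k) * X ^ (k : ℕ)) = 0 → w = 0 := by
    intro w hw
    rw [AdjoinRoot.mk_eq_zero] at hw
    have h2 : ∑ k : Fin b, C (w k) * X ^ (k : ℕ) = 0 := by
      by_contra hne
      have h3 := natDegree_le_of_dvd hw hne
      have h4 : (∑ k : Fin b, C (w k) * (X : ℚ[X][X]) ^ (k : ℕ)).natDegree ≤ b - 1 := by
        refine natDegree_sum_le_of_forall_le _ _ fun k _ => ?_
        exact (natDegree_C_mul_X_pow_le _ _).trans (by have := k.2; omega)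
      omega
    ext1 k
    have h5 := congrArg (fun q : ℚ[X][X] => q.coeff (k : ℕ)) h2
    simp only [finsetSum_coeff, coeff_C_mul, coeff_X_pow, coeff_zero] at h5
    rw [Finset.sum_eq_single k] at h5
    · simpa using h5
    · intro j _ hj
      rw [if_neg (fun h => hj (Fin.ext h.symm)), mul_zero]
    · intro h
      exact absurd (Finset.mem_univ k) h
  have hmk : ∀ w : Fin b → ℚ[X], AdjoinRoot.mk F (∑ k : Fin b, C (w k) * X ^ (k : ℕ)) =
      ∑ k : Fin b, AdjoinRoot.of F (w k) * AdjoinRoot.root F ^ (k : ℕ) := by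
    intro w
    rw [map_sum]
    refine Finset.sum_congr rfl fun k _ => ?_
    rw [map_mul, map_pow, AdjoinRoot.mk_X, AdjoinRoot.mk_C]
  have hprod : (∑ k : Fin b, AdjoinRoot.of F (g k) * AdjoinRoot.root F ^ (k : ℕ)) *
      (∑ k : Fin b, AdjoinRoot.of F (v k) * AdjoinRoot.root F ^ (k : ℕ)) = 0 := by
    rw [Finset.mul_sum]
    have h6 : ∀ j : Fin b, (∑ k : Fin b, AdjoinRoot.of F (g k) * AdjoinRoot.root F ^ (k : ℕ)) *
        (AdjoinRoot.of F (v j) * AdjoinRoot.root F ^ (j : ℕ)) =
        ∑ i : Fin b, AdjoinRoot.of F (mulM (hh a α β m) g i j * v j) *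
          AdjoinRoot.root F ^ (i : ℕ) := by
      intro j
      have h7 := mulM_spec (hh a α β m) g (AdjoinRoot.of F) (AdjoinRoot.root F) hroot j
      calc _ = AdjoinRoot.of F (v j) * ((∑ k : Fin b, AdjoinRoot.of F (g k) *
            AdjoinRoot.root F ^ (k : ℕ)) * AdjoinRoot.root F ^ (j : ℕ)) := by ring
        _ = _ := by
          rw [← h7, Finset.mul_sum]
          refine Finset.sum_congr rfl fun i _ => ?_
          rw [map_mul]
          ring
    rw [Finset.sum_congr rfl fun j _ => h6 j, Finset.sum_comm]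
    refine Finset.sum_eq_zero fun i _ => ?_
    rw [← Finset.sum_mul, ← map_sum]
    have h8 := congrFun hv0 i
    simp only [Matrix.mulVec, dotProduct, Pi.zero_apply] at h8
    rw [h8, map_zero, zero_mul]
  rw [← hmk, ← hmk, ← map_mul, AdjoinRoot.mk_eq_zero] at hprod
  rcases hprime.dvd_or_dvd hprod with h | h
  · exact hg (small g (AdjoinRoot.mk_eq_zero.2 h))
  · exact hv (small v (AdjoinRoot.mk_eq_zero.2 h))

theorem natDegree_det_le {b K : ℕ} (M : Matrix (Fin b) (Fin b) ℚ[X])
    (h : ∀ i j, (M i j).natDegree ≤ K) : M.det.natDegree ≤ b * K := by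
  rw [Matrix.det_apply]
  refine natDegree_sum_le_of_forall_le _ _ fun σ _ => ?_
  refine (natDegree_smul_le _ _).trans ((natDegree_prod_le _ _).trans ?_)
  refine (Finset.sum_le_card_nsmul _ _ K fun i _ => h _ _).trans ?_
  simp

/-- the number of the abscissas of the zeros -/
theorem zeros {a b L : ℕ} [NeZero b] (ha : 1 ≤ a) {α β m : ℚ} (hα : α ≠ 0)
    (hβ : β ≠ 0) (hm : m ≠ 0) (g : Fin b → ℚ[X]) (hg : g ≠ 0)
    (hL : ∀ k, (g k).natDegree ≤ L) (s : Finset ℚ)
    (hs : ∀ x ∈ s, ∃ y : ℚ, α * x ^ a + β * y ^ b = m ∧ ∑ k, (g k).eval x * y ^ (k : ℕ) = 0) :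
    s.card ≤ b * (a + L) := by
  classical
  set M := mulM (hh a α β m) g with hM
  have h0 : M.det ≠ 0 := det_ne_zero ha hα hβ hm g hg
  have hdeg : M.det.natDegree ≤ b * (a + L) := by
    refine natDegree_det_le M fun i j => ?_
    simp only [hM, mulM, Matrix.of_apply]
    split_ifs
    · exact (hL _).trans (by omega)
    · exact natDegree_mul_le.trans (Nat.add_le_add (natDegree_hh _ _ _ _) (hL _))
  have hroots : s ⊆ M.det.roots.toFinset := by
    intro x hx
    rw [Multiset.mem_toFinset, mem_roots h0, IsRoot.def]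
    obtain ⟨y, hy, hG⟩ := hs x hx
    have h1 : (evalRingHom x) M.det = ((evalRingHom x).mapMatrix M).det := RingHom.map_det _ _
    rw [← coe_evalRingHom, h1]
    apply Matrix.exists_vecMul_eq_zero_iff.1
    refine ⟨fun i => y ^ (i : ℕ), ?_, ?_⟩
    · intro h
      have := congrFun h 0
      simp at this
    · ext j
      have hyb : y ^ b = (evalRingHom x) (hh a α β m) := by
        simp only [hh, coe_evalRingHom, eval_mul, eval_C, eval_sub, eval_pow, eval_X]
        field_simp
        linarith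
      have h2 := mulM_spec (hh a α β m) g (evalRingHom x) y hyb j
      simp only [Matrix.vecMul, dotProduct, RingHom.mapMatrix_apply, Matrix.map_apply, Pi.zero_apply]
      rw [Finset.sum_congr rfl fun i _ => mul_comm _ _, h2]
      simp only [coe_evalRingHom]
      rw [hG, zero_mul]
  calc s.card ≤ M.det.roots.toFinset.card := Finset.card_le_card hroots
    _ ≤ Multiset.card M.det.roots := Multiset.toFinset_card_le _
    _ ≤ M.det.natDegree := card_roots' _
    _ ≤ _ := hdeg

end Pool.Agent.Helper54.DC
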