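import Pool.Agent.Helper54.DC.Loc
import Pool.Agent.Helper54.DC.Zero

/-!
The determinant method for `α x ^ a + β y ^ b = m`: the points in one residue class.
-/

set_option autoImplicit false

namespace Pool.Agent.Helper54.DC

open Polynomial

/-- a determinant is small -/
theorem abs_det_le {E : ℕ} (D : Matrix (Fin E) (Fin E) ℤ) (B : Fin E → ℝ)
    (hB : ∀ k i, |(D k i : ℝ)| ≤ B i) : |(D.det : ℝ)| ≤ (E.factorial : ℝ) * ∏ i, B i := by
  rw [Matrix.det_apply]
  push_cast
  refine (Finset.abs_sum_le_sum_abs _ _).trans ?_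
  have h1 : ∀ σ ∈ (Finset.univ : Finset (Equiv.Perm (Fin E))),
      |((((Equiv.Perm.sign σ : ℤˣ) • ∏ i, D (σ i) i : ℤ)) : ℝ)| ≤ ∏ i, B i := by
    intro σ _
    have h2 : |((((Equiv.Perm.sign σ : ℤˣ) • ∏ i, D (σ i) i : ℤ)) : ℝ)| =
        ∏ i, |(D (σ i) i : ℝ)| := by
      rw [← Finset.abs_prod]
      rcases Int.units_eq_one_or (Equiv.Perm.sign σ) with h | h
      · rw [h]; simp
      · rw [h]; simp
    rw [h2]
    exact Finset.prod_le_prod (fun _ _ => abs_nonneg _) fun i _ => hB _ _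
  refine (Finset.sum_le_card_nsmul _ _ _ h1).trans (le_of_eq ?_)
  rw [Finset.card_univ, Fintype.card_perm, Fintype.card_fin, nsmul_eq_mul]

/-- an auxiliary function vanishing at all points of a class, if all determinants vanish -/
theorem exists_aux {E : ℕ} (s : Finset (ℤ × ℤ)) (φ : ℤ × ℤ → Fin E → ℚ)
    (hdet : ∀ P : Fin E → ℤ × ℤ, (∀ k, P k ∈ s) → (Matrix.of fun k i => φ (P k) i).det = 0) :
    ∃ G : Fin E → ℚ, G ≠ 0 ∧ ∀ P ∈ s, ∑ k, G k * φ P k = 0 := by
  classical
  by_cases hW : Submodule.span ℚ (φ '' (s : Set (ℤ × ℤ))) = ⊤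
  · exfalso
    obtain ⟨t, hts, hspan, hli⟩ := exists_linearIndependent ℚ (φ '' (s : Set (ℤ × ℤ)))
    rw [hW] at hspan
    have hfin : t.Finite := (s.finite_toSet.image φ).subset hts
    have : Fintype t := hfin.fintype
    let bs : Module.Basis t ℚ (Fin E → ℚ) := Module.Basis.mk hli (by
      rw [Subtype.range_coe, hspan])
    have hcard : Fintype.card t = E := by
      have h1 := Module.finrank_eq_card_basis bs
      rw [Module.finrank_fin_fun] at h1
      exact h1.symm
    let e : Fin E ≃ t := (Fintype.equivFinOfCardEq hcard).symm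
    have hP : ∀ k : Fin E, ∃ P ∈ s, φ P = (e k : Fin E → ℚ) := by
      intro k
      obtain ⟨P, hP, hP'⟩ := hts (e k).2
      exact ⟨P, hP, hP'⟩
    choose P hPs hPφ using hP
    have h2 := hdet P hPs
    have h3 : LinearIndependent ℚ (Matrix.of fun k i => φ (P k) i).row := by
      have h4 : (Matrix.of fun k i => φ (P k) i).row = fun k => ((e k : t) : Fin E → ℚ) := by
        ext k i
        simp only [Matrix.row, Matrix.of_apply]
        rw [hPφ]
      rw [h4]
      exact hli.comp e e.injective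
    rw [Matrix.linearIndependent_rows_iff_isUnit] at h3
    have h5 := (Matrix.isUnit_iff_isUnit_det _).1 h3
    rw [h2] at h5
    exact not_isUnit_zero h5
  · obtain ⟨f, hf, hle⟩ := Submodule.exists_le_ker_of_lt_top _ (lt_top_iff_ne_top.2 hW)
    refine ⟨fun k => f (fun j => if k = j then 1 else 0), ?_, ?_⟩
    · intro h
      apply hf
      refine LinearMap.ext fun w => ?_
      rw [LinearMap.pi_apply_eq_sum_univ f w]
      refine Finset.sum_eq_zero fun k _ => ?_
      have h6 : f (fun j => if k = j then 1 else 0) = 0 := congrFun h k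
      rw [h6, smul_zero]
    · intro P hP
      have h7 : f (φ P) = 0 := by
        have := hle (Submodule.subset_span ⟨P, hP, rfl⟩)
        exact this
      rw [LinearMap.pi_apply_eq_sum_univ f (φ P)] at h7
      refine Eq.trans ?_ h7
      refine Finset.sum_congr rfl fun k _ => ?_
      rw [smul_eq_mul, mul_comm]

/-- **The points in a class.** -/
theorem class_bound {a b L : ℕ} (ha : 1 ≤ a) (hb : 1 ≤ b) {α β m : ℤ} (hα : α ≠ 0)
    (hβ : β ≠ 0) (hm : m ≠ 0) {p : ℕ} (hp : p.Prime) (s : Finset (ℤ × ℤ)) (x0 y0 : ℤ)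
    (hu : ¬ (p : ℤ) ∣ b * β * y0) (U V : ℝ)
    (hs : ∀ P ∈ s, α * P.1 ^ a + β * P.2 ^ b = m ∧ (p : ℤ) ∣ P.1 - x0 ∧ (p : ℤ) ∣ P.2 - y0 ∧
      |(P.1 : ℝ)| ≤ U ∧ |(P.2 : ℝ)| ≤ V)
    (hsmall : ((L * b).factorial : ℝ) * (U ^ (b * (L * (L - 1) / 2)) * V ^ (L * (b * (b - 1) / 2))) <
      (p : ℝ) ^ ((L * b) * (L * b - 1) / 2)) :
    (s.image Prod.fst).card ≤ b * (a + L) := by
  classical
  have : NeZero b := ⟨by omega⟩
  set E := L * b with hE
  let e : Fin E ≃ Fin L × Fin b := finProdFinEquiv.symm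
  let φ : ℤ × ℤ → Fin E → ℚ := fun P k => (P.1 : ℚ) ^ ((e k).1 : ℕ) * (P.2 : ℚ) ^ ((e k).2 : ℕ)
  have hprod : ∏ i : Fin E, (U ^ ((e i).1 : ℕ) * V ^ ((e i).2 : ℕ)) =
      U ^ (b * (L * (L - 1) / 2)) * V ^ (L * (b * (b - 1) / 2)) := by
    rw [Equiv.prod_comp e (fun q : Fin L × Fin b => U ^ (q.1 : ℕ) * V ^ (q.2 : ℕ)),
      Fintype.prod_prod_type]
    simp only [Finset.prod_mul_distrib, Finset.prod_const, Finset.card_univ, Fintype.card_fin]
    rw [Finset.prod_pow, Finset.prod_pow_eq_pow_sum, Finset.prod_pow_eq_pow_sum]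
    rw [Fin.sum_univ_eq_sum_range (fun i => i) L, Fin.sum_univ_eq_sum_range (fun i => i) b,
      Finset.sum_range_id, Finset.sum_range_id, ← pow_mul, ← pow_mul,
      mul_comm (L * (L - 1) / 2), mul_comm (b * (b - 1) / 2)]
  obtain ⟨G, hG0, hG⟩ := exists_aux s φ (by
    intro P hP
    have h1 := det_dvd a b α β m p hp (fun k => (P k).1) (fun k => (P k).2) x0 y0
      (fun k => (hs _ (hP k)).2.1) (fun k => (hs _ (hP k)).2.2.1) hu (fun k => (hs _ (hP k)).1)
      (fun i => ((e i).1 : ℕ)) (fun i => ((e i).2 : ℕ))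
    set D : Matrix (Fin E) (Fin E) ℤ := Matrix.of fun k i =>
      (P k).1 ^ ((e i).1 : ℕ) * (P k).2 ^ ((e i).2 : ℕ) with hD
    have h2 : |(D.det : ℝ)| ≤ (E.factorial : ℝ) * ∏ i : Fin E, (U ^ ((e i).1 : ℕ) * V ^ ((e i).2 : ℕ)) := by
      refine abs_det_le D _ fun k i => ?_
      rw [hD, Matrix.of_apply]
      push_cast
      rw [abs_mul, abs_pow, abs_pow]
      exact mul_le_mul (pow_le_pow_left₀ (abs_nonneg _) (hs _ (hP k)).2.2.2.1 _)
        (pow_le_pow_left₀ (abs_nonneg _) (hs _ (hP k)).2.2.2.2 _) (by positivity)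
        (pow_nonneg ((abs_nonneg _).trans (hs _ (hP k)).2.2.2.1) _)
    rw [hprod] at h2
    have h3 : D.det = 0 := by
      by_contra hne
      have h4 := Int.le_of_dvd (abs_pos.2 hne) ((dvd_abs _ _).2 h1)
      have h5 : ((p : ℝ)) ^ (E * (E - 1) / 2) ≤ |(D.det : ℝ)| := by
        exact_mod_cast h4
      linarith
    have h6 : (Matrix.of fun k i => φ (P k) i) = D.map (Int.castRingHom ℚ) := by
      ext k i
      simp [φ, hD]
    rw [h6]
    have h7 := (Int.castRingHom ℚ).map_det D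
    rw [h3, map_zero] at h7
    exact h7.symm)
  -- the auxiliary polynomial
  let g : Fin b → ℚ[X] := fun j => ∑ i : Fin L, C (G (e.symm (i, j))) * X ^ (i : ℕ)
  have hg : g ≠ 0 := by
    intro h
    apply hG0
    ext k
    obtain ⟨⟨i, j⟩, hij⟩ : ∃ q, e.symm q = k := ⟨e k, e.symm_apply_apply k⟩
    have h1 := congrArg (fun q : ℚ[X] => q.coeff (i : ℕ)) (congrFun h j)
    simp only [g, finsetSum_coeff, coeff_C_mul, coeff_X_pow, Pi.zero_apply, coeff_zero] at h1
    rw [Finset.sum_eq_single i] at h1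
    · rw [if_pos rfl, mul_one, hij] at h1
      simpa using h1
    · intro j' _ hj'
      rw [if_neg (fun h => hj' (Fin.ext h.symm)), mul_zero]
    · intro h
      exact absurd (Finset.mem_univ i) h
  have hL : ∀ k, (g k).natDegree ≤ L := by
    intro k
    refine natDegree_sum_le_of_forall_le _ _ fun i _ => ?_
    exact (natDegree_C_mul_X_pow_le _ _).trans i.2.le
  have hz := zeros (b := b) (L := L) ha (α := (α : ℚ)) (β := (β : ℚ)) (m := (m : ℚ))
    (by exact_mod_cast hα) (by exact_mod_cast hβ) (by exact_mod_cast hm) g hg hL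
    ((s.image Prod.fst).image (fun z : ℤ => (z : ℚ))) (by
      intro x hx
      rw [Finset.mem_image] at hx
      obtain ⟨z, hz, rfl⟩ := hx
      rw [Finset.mem_image] at hz
      obtain ⟨P, hP, rfl⟩ := hz
      refine ⟨(P.2 : ℚ), ?_, ?_⟩
      · exact_mod_cast (hs P hP).1
      · have h1 := hG P hP
        rw [← Equiv.sum_comp e.symm, Fintype.sum_prod_type, Finset.sum_comm] at h1
        rw [← h1]
        refine Finset.sum_congr rfl fun j _ => ?_
        simp only [g, eval_finsetSum, eval_mul, eval_C, eval_pow, eval_X, φ, Equiv.apply_symm_apply,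
          Finset.sum_mul]
        exact Finset.sum_congr rfl fun i _ => by ring)
  rwa [Finset.card_image_of_injective _ Int.cast_injective] at hz

end Pool.Agent.Helper54.DC
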