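import Pool.Agent.Helper54.DC.Rad

/-!
Counting the integers which are products of small spread.
-/

set_option autoImplicit false

namespace Pool.Agent.Helper54.DC

open Finset

theorem card_real {α β : Type*} [DecidableEq β] (f : α → β) (s : Finset α) (t : Finset β)
    (hf : ∀ a ∈ s, f a ∈ t) (B : ℝ) (hB : ∀ b ∈ t, ((s.filter fun a => f a = b).card : ℝ) ≤ B) :
    (s.card : ℝ) ≤ t.card * B := by
  rw [Finset.card_eq_sum_card_fiberwise (f := f) (t := t) (fun a ha => hf a ha)]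
  push_cast
  refine (Finset.sum_le_card_nsmul _ _ B hB).trans ?_
  rw [nsmul_eq_mul]

/-- the logarithm is small -/
theorem log_small (η : ℝ) (hη : 0 < η) : ∃ K : ℝ, 1 ≤ K ∧ ∀ N : ℝ, 1 ≤ N → ∀ L : ℕ,
    (2 : ℝ) ^ L ≤ N → (L : ℝ) + 1 ≤ K * N ^ η := by
  have hl : 0 < η * Real.log 2 := mul_pos hη (Real.log_pos (by norm_num))
  refine ⟨1 / (η * Real.log 2) + 1, by linarith [div_pos one_pos hl], ?_⟩
  intro N hN L hL
  have h1 : (1 : ℝ) ≤ N ^ η := Real.one_le_rpow hN hη.le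
  have h2 : (L : ℝ) * (η * Real.log 2) ≤ N ^ η := by
    have h3 : (L : ℝ) * (η * Real.log 2) ≤ Real.exp ((L : ℝ) * (η * Real.log 2)) := by
      linarith [Real.add_one_le_exp ((L : ℝ) * (η * Real.log 2))]
    refine h3.trans ?_
    have h4 : Real.exp ((L : ℝ) * (η * Real.log 2)) = ((2 : ℝ) ^ L) ^ η := by
      rw [← Real.rpow_natCast, ← Real.rpow_mul (by norm_num), Real.rpow_def_of_pos (by norm_num)]
      congr 1
      ring
    rw [h4]
    exact Real.rpow_le_rpow (by positivity) hL hη.le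
  have h5 : (L : ℝ) ≤ 1 / (η * Real.log 2) * N ^ η := by
    rw [one_div, ← div_eq_inv_mul, le_div_iff₀ hl]
    exact h2
  calc (L : ℝ) + 1 ≤ 1 / (η * Real.log 2) * N ^ η + 1 * N ^ η := by linarith
    _ = _ := by ring

/-- the integers of the type `τ` -/
def Ty (M τ W : ℕ) : Prop :=
  W ≠ 0 ∧ if τ = 0 then W.primeFactors ⊆ ((M + 1).factorial).primeFactors else
    ∃ b s : ℕ, 2 ≤ b ∧ s + 1 < τ ∧ b + s ≤ (M + 1) * b ∧ b ^ τ ≤ W ∧
      W.primeFactors ⊆ (∏ j ∈ range (s + 1), (b + j)).primeFactors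

theorem card_ty (M : ℕ) (ε : ℝ) (hε : 0 < ε) : ∃ K : ℝ, 1 ≤ K ∧ ∀ N : ℝ, 1 ≤ N → ∀ τ : ℕ,
    ∀ s : Finset ℕ, (∀ W ∈ s, Ty M τ W ∧ (W : ℝ) ≤ N) →
      (s.card : ℝ) ≤ K * N ^ ((τ : ℝ)⁻¹ + ε) := by
  classical
  set κ : ℕ := M + 2 with hκ
  have hκ0 : (0 : ℝ) < (κ : ℝ) + 1 := by positivity
  obtain ⟨C, hC, hcount⟩ := rad_count (ε / 2 / ((κ : ℝ) + 1)) (by positivity)
  obtain ⟨C', hC', hcount'⟩ := rad_count ε hε
  obtain ⟨D, hD, hlog⟩ := log_small (ε / 2) (by linarith)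
  set R₀ : ℕ := (M + 1).factorial with hR₀
  have hR₀1 : (1 : ℝ) ≤ (R₀ : ℝ) ^ ε := by
    apply Real.one_le_rpow _ hε.le
    exact_mod_cast Nat.succ_le_of_lt (Nat.factorial_pos _)
  have hK1 : 1 ≤ C' * (R₀ : ℝ) ^ ε := one_le_mul_of_one_le_of_one_le hC' hR₀1
  have hK2 : 0 ≤ D * C := by nlinarith
  refine ⟨C' * (R₀ : ℝ) ^ ε + D * C, by linarith, ?_⟩
  intro N hN τ s hs
  have hN0 : 0 < N := by linarith
  by_cases hτ : τ = 0
  · have h1 := hcount' R₀ (Nat.factorial_ne_zero _) N hN0.le s (by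
      intro W hW
      obtain ⟨⟨h2, h3⟩, h4⟩ := hs W hW
      rw [if_pos hτ] at h3
      exact ⟨h2, h4, h3⟩)
    rw [hτ, Nat.cast_zero, inv_zero, zero_add]
    calc (s.card : ℝ) ≤ C' * (N * R₀) ^ ε := h1
      _ = C' * (R₀ : ℝ) ^ ε * N ^ ε := by
        rw [Real.mul_rpow hN0.le (Nat.cast_nonneg _)]
        ring
      _ ≤ _ := mul_le_mul_of_nonneg_right (by linarith) (Real.rpow_nonneg hN0.le _)
  · have hτ0 : (0 : ℝ) < τ := by exact_mod_cast Nat.pos_of_ne_zero hτ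
    have hch : ∀ W : ℕ, ∃ q : ℕ × ℕ, W ∈ s → 2 ≤ q.1 ∧ q.2 + 1 < τ ∧
        q.1 + q.2 ≤ (M + 1) * q.1 ∧ q.1 ^ τ ≤ W ∧
        W.primeFactors ⊆ (∏ j ∈ range (q.2 + 1), (q.1 + j)).primeFactors := by
      intro W
      by_cases hW : W ∈ s
      · obtain ⟨⟨h2, h3⟩, h4⟩ := hs W hW
        rw [if_neg hτ] at h3
        obtain ⟨b, s', h5⟩ := h3
        exact ⟨(b, s'), fun _ => h5⟩
      · exact ⟨(0, 0), fun h => absurd h hW⟩
    choose f hf using hch
    set B : ℕ := ⌊N ^ ((τ : ℝ)⁻¹)⌋₊ with hB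
    rcases s.eq_empty_or_nonempty with hse | ⟨W₀, hW₀⟩
    · rw [hse]
      simp only [Finset.card_empty, Nat.cast_zero]
      exact mul_nonneg (by linarith) (Real.rpow_nonneg hN0.le _)
    have hmem : ∀ W ∈ s, f W ∈ Finset.Icc 1 B ×ˢ range τ := by
      intro W hW
      obtain ⟨h1, h2, h3, h4, h5⟩ := hf W hW
      rw [Finset.mem_product, Finset.mem_Icc, Finset.mem_range]
      refine ⟨⟨by omega, ?_⟩, by omega⟩
      rw [hB]
      apply Nat.le_floor
      have h6 : ((f W).1 : ℝ) ^ τ ≤ N := by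
        refine le_trans ?_ (hs W hW).2
        exact_mod_cast h4
      calc ((f W).1 : ℝ) = (((f W).1 : ℝ) ^ τ) ^ ((τ : ℝ)⁻¹) := by
            rw [← Real.rpow_natCast, ← Real.rpow_mul (Nat.cast_nonneg _),
              mul_inv_cancel₀ hτ0.ne', Real.rpow_one]
        _ ≤ _ := Real.rpow_le_rpow (by positivity) h6 (by positivity)
    have hfib : ∀ q ∈ Finset.Icc 1 B ×ˢ range τ,
        ((s.filter fun W => f W = q).card : ℝ) ≤ C * N ^ (ε / 2) := by
      intro q _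
      rcases (s.filter fun W => f W = q).eq_empty_or_nonempty with he | ⟨W₁, hW₁⟩
      · rw [he]
        simp only [Finset.card_empty, Nat.cast_zero]
        exact mul_nonneg (by linarith) (Real.rpow_nonneg hN0.le _)
      rw [Finset.mem_filter] at hW₁
      obtain ⟨h1, h2, h3, h4, h5⟩ := hf W₁ hW₁.1
      rw [hW₁.2] at h1 h2 h3 h4 h5
      set R : ℕ := ∏ j ∈ range (q.2 + 1), (q.1 + j) with hR
      have hR0 : R ≠ 0 := Finset.prod_ne_zero_iff.2 fun j _ => by omega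
      have hRle : R ≤ (q.1 ^ τ) ^ κ := by
        calc R ≤ ∏ j ∈ range (q.2 + 1), (q.1 ^ κ) := by
              apply Finset.prod_le_prod'
              intro j hj
              rw [Finset.mem_range] at hj
              have h6 : M + 1 ≤ q.1 ^ (M + 1) :=
                (Nat.lt_two_pow_self (n := M + 1)).le.trans (Nat.pow_le_pow_left h1 _)
              calc q.1 + j ≤ (M + 1) * q.1 := by omega
                _ ≤ q.1 ^ (M + 1) * q.1 := Nat.mul_le_mul_right _ h6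
                _ = q.1 ^ κ := by rw [← pow_succ]
          _ = (q.1 ^ κ) ^ (q.2 + 1) := by rw [Finset.prod_const, Finset.card_range]
          _ ≤ (q.1 ^ κ) ^ τ := Nat.pow_le_pow_right (by positivity) h2.le
          _ = (q.1 ^ τ) ^ κ := by rw [← pow_mul, ← pow_mul, mul_comm]
      have hRN : (R : ℝ) ≤ N ^ κ := by
        calc (R : ℝ) ≤ (((q.1 ^ τ) ^ κ : ℕ) : ℝ) := by exact_mod_cast hRle
          _ = ((q.1 ^ τ : ℕ) : ℝ) ^ κ := by push_cast; ring
          _ ≤ N ^ κ := by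
            apply pow_le_pow_left₀ (by positivity)
            refine le_trans ?_ (hs W₁ hW₁.1).2
            exact_mod_cast h4
      have h7 := hcount R hR0 N hN0.le (s.filter fun W => f W = q) (by
        intro W hW
        rw [Finset.mem_filter] at hW
        obtain ⟨g1, g2, g3, g4, g5⟩ := hf W hW.1
        rw [hW.2] at g5
        exact ⟨(hs W hW.1).1.1, (hs W hW.1).2, g5⟩)
      refine h7.trans ?_
      apply mul_le_mul_of_nonneg_left _ (by linarith)
      have h8 : N * (R : ℝ) ≤ N ^ (κ + 1) := by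
        rw [pow_succ']
        exact mul_le_mul_of_nonneg_left hRN hN0.le
      calc (N * (R : ℝ)) ^ (ε / 2 / ((κ : ℝ) + 1)) ≤
          (N ^ (κ + 1)) ^ (ε / 2 / ((κ : ℝ) + 1)) :=
            Real.rpow_le_rpow (by positivity) h8 (by positivity)
        _ = N ^ (ε / 2) := by
          rw [← Real.rpow_natCast, ← Real.rpow_mul hN0.le]
          congr 1
          push_cast
          field_simp
    have h9 := card_real f s _ hmem _ hfib
    rw [Finset.card_product, Nat.card_Icc, Finset.card_range, Nat.add_sub_cancel] at h9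
    have h10 : (τ : ℝ) + 1 ≤ D * N ^ (ε / 2) := by
      apply hlog N hN
      obtain ⟨h1, h2, h3, h4, h5⟩ := hf W₀ hW₀
      calc (2 : ℝ) ^ τ ≤ ((f W₀).1 : ℝ) ^ τ := by
            apply pow_le_pow_left₀ (by norm_num)
            exact_mod_cast h1
        _ ≤ (W₀ : ℝ) := by exact_mod_cast h4
        _ ≤ N := (hs W₀ hW₀).2
    have h11 : (B : ℝ) ≤ N ^ ((τ : ℝ)⁻¹) := Nat.floor_le (Real.rpow_nonneg hN0.le _)
    have hD0 : 0 ≤ D * N ^ (ε / 2) := mul_nonneg (by linarith) (Real.rpow_nonneg hN0.le _)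
    calc (s.card : ℝ) ≤ ((B * τ : ℕ) : ℝ) * (C * N ^ (ε / 2)) := h9
      _ = (B : ℝ) * (τ : ℝ) * (C * N ^ (ε / 2)) := by push_cast; ring
      _ ≤ N ^ ((τ : ℝ)⁻¹) * (D * N ^ (ε / 2)) * (C * N ^ (ε / 2)) := by
        apply mul_le_mul_of_nonneg_right _
          (mul_nonneg (by linarith) (Real.rpow_nonneg hN0.le _))
        exact mul_le_mul h11 (by linarith) hτ0.le (Real.rpow_nonneg hN0.le _)
      _ = D * C * N ^ ((τ : ℝ)⁻¹ + ε) := by
        have h12 : N ^ ((τ : ℝ)⁻¹ + ε) = N ^ ((τ : ℝ)⁻¹) * (N ^ (ε / 2) * N ^ (ε / 2)) := by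
          rw [← Real.rpow_add hN0, ← Real.rpow_add hN0]
          congr 1
          ring
        rw [h12]
        ring
      _ ≤ _ := mul_le_mul_of_nonneg_right (by linarith) (Real.rpow_nonneg hN0.le _)

end Pool.Agent.Helper54.DC
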