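import Mathlib

/-!
The determinant method for `α x ^ a + β y ^ b = m`: local part.
-/

set_option autoImplicit false

namespace Pool.Agent.Helper54.DC

open Polynomial

/-- near a smooth point modulo `p`, `y` is a polynomial in `x` modulo all powers of `p` -/
theorem lift {ι : Type} (a b : ℕ) (α β m : ℤ) (p : ℕ) (hp : p.Prime) (x y : ι → ℤ)
    (y0 : ℤ) (hy : ∀ k, (p : ℤ) ∣ y k - y0) (hu : ¬ (p : ℤ) ∣ b * β * y0)
    (he : ∀ k, α * x k ^ a + β * y k ^ b = m) (n : ℕ) :
    ∃ c : ℤ[X], (∀ k, (p : ℤ) ∣ c.eval (x k) - y0) ∧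
      ∀ k, (p : ℤ) ^ (n + 1) ∣ y k - c.eval (x k) := by
  have hpi : Prime (p : ℤ) := Nat.prime_iff_prime_int.1 hp
  induction n with
  | zero => exact ⟨C y0, fun k => by simp, fun k => by simpa using hy k⟩
  | succ n ih =>
    obtain ⟨c, hc0, hc⟩ := ih
    have hcop : IsCoprime (p : ℤ) (b * β * y0 ^ (b - 1)) := by
      refine (Prime.coprime_iff_not_dvd hpi).2 ?_
      intro h
      rcases hpi.dvd_or_dvd h with h | h
      · exact hu (Dvd.dvd.mul_right h _)
      · exact hu (Dvd.dvd.mul_left (hpi.dvd_of_dvd_pow h) _)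
    obtain ⟨u, γ, huγ⟩ := hcop
    have key : ∀ k, c.eval (x k) - γ * (β * c.eval (x k) ^ b - (m - α * x k ^ a)) =
        c.eval (x k) - γ * β * ((∑ i ∈ Finset.range b, c.eval (x k) ^ i * y k ^ (b - 1 - i)) *
          (c.eval (x k) - y k)) := by
      intro k
      rw [geom_sum₂_mul, ← he k]
      ring
    have hdvd : ∀ k, (p : ℤ) ∣ c.eval (x k) - y k := by
      intro k
      have := (dvd_pow_self (p : ℤ) (Nat.succ_ne_zero n)).trans (hc k)
      rw [← neg_sub]
      exact this.neg_right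
    have hS : ∀ k, (p : ℤ) ∣ 1 - γ * β * ∑ i ∈ Finset.range b,
        c.eval (x k) ^ i * y k ^ (b - 1 - i) := by
      intro k
      have h1 : c.eval (x k) ≡ y0 [ZMOD p] := (Int.modEq_iff_dvd.2 (hc0 k)).symm
      have h2 : y k ≡ y0 [ZMOD p] := (Int.modEq_iff_dvd.2 (hy k)).symm
      have h3 : ∑ i ∈ Finset.range b, c.eval (x k) ^ i * y k ^ (b - 1 - i) ≡
          ∑ i ∈ Finset.range b, y0 ^ (b - 1) [ZMOD p] := by
        refine Int.ModEq.sum fun i hi => ?_
        have hi' := Finset.mem_range.1 hi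
        have h4 : y0 ^ (b - 1) = y0 ^ i * y0 ^ (b - 1 - i) := by
          rw [← pow_add]
          congr 1
          omega
        rw [h4]
        exact (h1.pow i).mul (h2.pow _)
      have h5 : γ * β * ∑ i ∈ Finset.range b, c.eval (x k) ^ i * y k ^ (b - 1 - i) ≡
          1 [ZMOD p] := by
        refine (h3.mul_left (γ * β)).trans ?_
        rw [Finset.sum_const, Finset.card_range, nsmul_eq_mul]
        refine Int.modEq_iff_dvd.2 ⟨u, ?_⟩
        linear_combination (-1 : ℤ) * huγ
      exact Int.modEq_iff_dvd.1 h5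
    refine ⟨c - C γ * (C β * c ^ b - (C m - C α * X ^ a)), ?_, ?_⟩
    · intro k
      simp only [eval_sub, eval_mul, eval_C, eval_pow, eval_X]
      rw [key k]
      rw [sub_right_comm]
      exact (hc0 k).sub (((hdvd k).mul_left (∑ i ∈ Finset.range b,
        c.eval (x k) ^ i * y k ^ (b - 1 - i))).mul_left (γ * β))
    · intro k
      simp only [eval_sub, eval_mul, eval_C, eval_pow, eval_X]
      rw [key k]
      have e : y k - (c.eval (x k) - γ * β * ((∑ i ∈ Finset.range b,
          c.eval (x k) ^ i * y k ^ (b - 1 - i)) * (c.eval (x k) - y k))) =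
          (y k - c.eval (x k)) * (1 - γ * β * ∑ i ∈ Finset.range b,
            c.eval (x k) ^ i * y k ^ (b - 1 - i)) := by ring
      rw [e, pow_succ]
      exact mul_dvd_mul (hc k) (hS k)

/-- the determinant of values of polynomials is divisible by the Vandermonde determinant -/
theorem det_eval_dvd {E : ℕ} (c : Fin E → ℤ[X]) (t : Fin E → ℤ) :
    (∏ i : Fin E, ∏ j ∈ Finset.Ioi i, (t j - t i)) ∣
      (Matrix.of fun k i : Fin E => (c i).eval (t k)).det := by
  classical
  set P : ℤ[X] := ∏ k : Fin E, (X - C (t k)) with hP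
  have hmon : P.Monic := monic_prod_of_monic _ _ fun k _ => monic_X_sub_C _
  have hdeg : P.natDegree = E := by
    rw [hP, natDegree_prod_of_monic _ _ fun k _ => monic_X_sub_C _]
    simp only [natDegree_X_sub_C, Finset.sum_const, Finset.card_univ, Fintype.card_fin, smul_eq_mul,
      mul_one]
  have hroot : ∀ k, P.eval (t k) = 0 := by
    intro k
    rw [hP, eval_prod]
    exact Finset.prod_eq_zero (Finset.mem_univ k) (by simp)
  have hev : ∀ i k, (c i).eval (t k) = ∑ n : Fin E, t k ^ (n : ℕ) * (c i %ₘ P).coeff n := by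
    intro i k
    have h1 : (c i).eval (t k) = (c i %ₘ P).eval (t k) := by
      conv_lhs => rw [← modByMonic_add_div (c i) P]
      rw [eval_add, eval_mul, hroot, zero_mul, add_zero]
    have hlt : (c i %ₘ P).natDegree < E ∨ c i %ₘ P = 0 := by
      by_cases h0 : c i %ₘ P = 0
      · exact Or.inr h0
      · left
        have hd := degree_modByMonic_lt (c i) hmon
        have := natDegree_lt_natDegree h0 hd
        rwa [hdeg] at this
    rw [h1]
    rcases hlt with h | h
    · rw [eval_eq_sum_range' h, Finset.sum_range]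
      exact Finset.sum_congr rfl fun n _ => mul_comm _ _
    · rw [h]; simp
  have hmat : (Matrix.of fun k i : Fin E => (c i).eval (t k)) =
      Matrix.vandermonde t * Matrix.of fun n i : Fin E => (c i %ₘ P).coeff n := by
    ext k i
    rw [Matrix.of_apply, hev, Matrix.mul_apply]
    rfl
  rw [hmat, Matrix.det_mul, Matrix.det_vandermonde]
  exact Dvd.intro _ rfl

/-- congruent matrices have congruent determinants -/
theorem det_congr {E : ℕ} (q : ℤ) (A B : Matrix (Fin E) (Fin E) ℤ)
    (h : ∀ k i, q ∣ A k i - B k i) : q ∣ A.det - B.det := by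
  have h1 : (Int.castRingHom (ℤ ⧸ Ideal.span {q})) = (Int.castRingHom _) := rfl
  let f := Ideal.Quotient.mk (Ideal.span {q})
  have h2 : f.mapMatrix A = f.mapMatrix B := by
    ext k i
    simp only [RingHom.mapMatrix_apply, Matrix.map_apply]
    exact (Ideal.Quotient.mk_eq_mk_iff_sub_mem _ _).2 (Ideal.mem_span_singleton.2 (h k i))
  have h3 : f A.det = f B.det := by rw [RingHom.map_det, RingHom.map_det, h2]
  exact Ideal.mem_span_singleton.1 ((Ideal.Quotient.mk_eq_mk_iff_sub_mem _ _).1 h3)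

/-- the determinant of monomials at points which are congruent modulo `p` -/
theorem det_dvd {E : ℕ} (a b : ℕ) (α β m : ℤ) (p : ℕ) (hp : p.Prime) (x y : Fin E → ℤ)
    (x0 y0 : ℤ) (hx : ∀ k, (p : ℤ) ∣ x k - x0) (hy : ∀ k, (p : ℤ) ∣ y k - y0)
    (hu : ¬ (p : ℤ) ∣ b * β * y0) (he : ∀ k, α * x k ^ a + β * y k ^ b = m)
    (u v : Fin E → ℕ) :
    (p : ℤ) ^ (E * (E - 1) / 2) ∣ (Matrix.of fun k i : Fin E => x k ^ u i * y k ^ v i).det := by
  obtain ⟨c, -, hc⟩ := lift a b α β m p hp x y y0 hy hu he (E * (E - 1) / 2)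
  have h1 := det_eval_dvd (fun i => X ^ u i * c ^ v i) x
  have h2 : (p : ℤ) ^ (E * (E - 1) / 2) ∣ ∏ i : Fin E, ∏ j ∈ Finset.Ioi i, (x j - x i) := by
    have h3 : ∏ i : Fin E, ∏ j ∈ Finset.Ioi i, (p : ℤ) ∣
        ∏ i : Fin E, ∏ j ∈ Finset.Ioi i, (x j - x i) := by
      refine Finset.prod_dvd_prod_of_dvd _ _ fun i _ => Finset.prod_dvd_prod_of_dvd _ _ fun j _ => ?_
      have := (hx j).sub (hx i)
      convert this using 1
      ring
    refine dvd_trans (dvd_of_eq ?_) h3
    simp only [Finset.prod_const]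
    rw [Finset.prod_pow_eq_pow_sum]
    congr 1
    simp only [Fin.card_Ioi]
    rw [Fin.sum_univ_eq_sum_range (fun i => E - 1 - i) E,
      Finset.sum_range_reflect (fun i => i) E]
    exact (Finset.sum_range_id E).symm
  have h4 : (p : ℤ) ^ (E * (E - 1) / 2) ∣
      (Matrix.of fun k i : Fin E => x k ^ u i * y k ^ v i).det -
      (Matrix.of fun k i : Fin E => (X ^ u i * c ^ v i : ℤ[X]).eval (x k)).det := by
    refine det_congr _ _ _ fun k i => ?_
    simp only [Matrix.of_apply, eval_mul, eval_pow, eval_X]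
    rw [← mul_sub]
    refine Dvd.dvd.mul_left (((pow_dvd_pow _ (Nat.le_succ _)).trans (hc k)).trans ?_) _
    exact sub_dvd_pow_sub_pow _ _ _
  have h5 := h4.add (h2.trans h1)
  rwa [sub_add_cancel] at h5

end Pool.Agent.Helper54.DC
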