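import Pool.Agent.Helper54.DC.Cla
import Pool.Agent.Helper54.DC.BP

/-!
The number of the solutions of `a₀ X₀ + a₁ X₁ + a₂ X₂ = 0` in products of small spread.
-/

set_option autoImplicit false

namespace Pool.Agent.Helper54.DC

open Finset

theorem univ3 : ∀ i j k : Fin 3, i ≠ j → i ≠ k → j ≠ k → (Finset.univ : Finset (Fin 3)) = {i, j, k} := by
  decide

theorem sum3 {i j k : Fin 3} (hij : i ≠ j) (hik : i ≠ k) (hjk : j ≠ k) (f : Fin 3 → ℤ) :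
    ∑ x, f x = f i + f j + f k := by
  rw [univ3 i j k hij hik hjk, Finset.sum_insert (by simp [hij, hik]),
    Finset.sum_insert (by simp [hjk]), Finset.sum_singleton, add_assoc]

theorem eq_of_two {a : Fin 3 → ℤ} (ha : ∀ i, a i ≠ 0) {i j k : Fin 3} (hij : i ≠ j) (hik : i ≠ k)
    (hjk : j ≠ k) {t t' : Fin 3 → ℕ} (h : ∑ x, a x * (t x : ℤ) = 0)
    (h' : ∑ x, a x * (t' x : ℤ) = 0) (hi : t i = t' i) (hj : t j = t' j) : t = t' := by
  rw [sum3 hij hik hjk] at h h'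
  rw [hi, hj] at h
  have h1 : a k * (t k : ℤ) = a k * (t' k : ℤ) := by linarith
  have h2 : (t k : ℤ) = t' k := mul_left_cancel₀ (ha k) h1
  have h3 : t k = t' k := by exact_mod_cast h2
  funext x
  have h4 : x ∈ (Finset.univ : Finset (Fin 3)) := Finset.mem_univ x
  rw [univ3 i j k hij hik hjk] at h4
  simp only [Finset.mem_insert, Finset.mem_singleton] at h4
  rcases h4 with rfl | rfl | rfl
  · exact hi
  · exact hj
  · exact h3

theorem pair_bound {a : Fin 3 → ℤ} (ha : ∀ i, a i ≠ 0) {M' : ℕ} {K₁ N ε : ℝ}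
    (hK₁ : ∀ τ, ∀ s : Finset ℕ, (∀ W ∈ s, Ty M' τ W ∧ (W : ℝ) ≤ N) →
      (s.card : ℝ) ≤ K₁ * N ^ ((τ : ℝ)⁻¹ + ε))
    {i j k : Fin 3} (hij : i ≠ j) (hik : i ≠ k) (hjk : j ≠ k) (τi τj : ℕ)
    (T : Finset (Fin 3 → ℕ)) (hT : ∀ t ∈ T, ∑ x, a x * (t x : ℤ) = 0 ∧ (∀ x, (t x : ℝ) ≤ N) ∧
      Ty M' τi (t i) ∧ Ty M' τj (t j)) :
    (T.card : ℝ) ≤ (K₁ * N ^ ((τi : ℝ)⁻¹ + ε)) * (K₁ * N ^ ((τj : ℝ)⁻¹ + ε)) := by
  classical
  have h1 := hK₁ τi (T.image fun t => t i) (by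
    intro W hW
    rw [Finset.mem_image] at hW
    obtain ⟨t, ht, rfl⟩ := hW
    exact ⟨(hT t ht).2.2.1, (hT t ht).2.1 i⟩)
  have h2 := hK₁ τj (T.image fun t => t j) (by
    intro W hW
    rw [Finset.mem_image] at hW
    obtain ⟨t, ht, rfl⟩ := hW
    exact ⟨(hT t ht).2.2.2, (hT t ht).2.1 j⟩)
  have h3 : T.card ≤ (T.image fun t => t i).card * (T.image fun t => t j).card := by
    rw [← Finset.card_product]
    apply Finset.card_le_card_of_injOn (fun t => (t i, t j))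
    · intro t ht
      rw [Finset.mem_coe] at ht
      exact Finset.mem_coe.2 (Finset.mem_product.2
        ⟨Finset.mem_image_of_mem _ ht, Finset.mem_image_of_mem _ ht⟩)
    · intro t ht t' ht' h
      rw [Finset.mem_coe] at ht ht'
      exact eq_of_two ha hij hik hjk (hT t ht).1 (hT t' ht').1 (congrArg Prod.fst h)
        (congrArg Prod.snd h)
  calc (T.card : ℝ) ≤ (((T.image fun t => t i).card * (T.image fun t => t j).card : ℕ) : ℝ) := by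
        exact_mod_cast h3
    _ = ((T.image fun t => t i).card : ℝ) * ((T.image fun t => t j).card : ℝ) := by push_cast; ring
    _ ≤ _ := mul_le_mul h1 h2 (Nat.cast_nonneg _) (le_trans (Nat.cast_nonneg _) h1)

theorem bp_bound {a : Fin 3 → ℤ} (ha : ∀ i, a i ≠ 0) {M' : ℕ} {K₁ K₂ N ε : ℝ}
    (hK₁ : ∀ τ, ∀ s : Finset ℕ, (∀ W ∈ s, Ty M' τ W ∧ (W : ℝ) ≤ N) →
      (s.card : ℝ) ≤ K₁ * N ^ ((τ : ℝ)⁻¹ + ε))
    {i j k : Fin 3} (hij : i ≠ j) (hik : i ≠ k) (hjk : j ≠ k) {p q : ℕ} (τk : ℕ)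
    (hK₂ : ∀ m : ℤ, m ≠ 0 → ∀ s : Finset (ℕ × ℕ), (∀ P ∈ s, OnCurve p q (a i) (a j) m N P) →
      (s.card : ℝ) ≤ K₂ * N ^ (1 / ((p : ℝ) * q) + ε))
    (hK₂0 : 0 ≤ K₂ * N ^ (1 / ((p : ℝ) * q) + ε))
    (T : Finset (Fin 3 → ℕ)) (hT : ∀ t ∈ T, ∑ x, a x * (t x : ℤ) = 0 ∧ (∀ x, (t x : ℝ) ≤ N) ∧
      Ty M' τk (t k) ∧ (∃ x, t i = x ^ p) ∧ (∃ y, t j = y ^ q)) :
    (T.card : ℝ) ≤ (K₁ * N ^ ((τk : ℝ)⁻¹ + ε)) * (K₂ * N ^ (1 / ((p : ℝ) * q) + ε)) := by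
  classical
  have hch : ∀ t : Fin 3 → ℕ, ∃ P : ℕ × ℕ, t ∈ T → t i = P.1 ^ p ∧ t j = P.2 ^ q := by
    intro t
    by_cases ht : t ∈ T
    · obtain ⟨-, -, -, ⟨x, hx⟩, ⟨y, hy⟩⟩ := hT t ht
      exact ⟨(x, y), fun _ => ⟨hx, hy⟩⟩
    · exact ⟨(0, 0), fun h => absurd h ht⟩
  choose f hf using hch
  have h1 := hK₁ τk (T.image fun t => t k) (by
    intro W hW
    rw [Finset.mem_image] at hW
    obtain ⟨t, ht, rfl⟩ := hW
    exact ⟨(hT t ht).2.2.1, (hT t ht).2.1 k⟩)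
  have h2 : ∀ w ∈ T.image (fun t => t k), ((T.filter fun t => t k = w).card : ℝ) ≤
      K₂ * N ^ (1 / ((p : ℝ) * q) + ε) := by
    intro w hw
    rw [Finset.mem_image] at hw
    obtain ⟨t₀, ht₀, rfl⟩ := hw
    have hw0 : t₀ k ≠ 0 := (hT t₀ ht₀).2.2.1.1
    have hm : -(a k * (t₀ k : ℤ)) ≠ 0 :=
      neg_ne_zero.2 (mul_ne_zero (ha k) (by exact_mod_cast hw0))
    have h3 := hK₂ _ hm ((T.filter fun t => t k = t₀ k).image f) (by
      intro P hP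
      rw [Finset.mem_image] at hP
      obtain ⟨t, ht, rfl⟩ := hP
      rw [Finset.mem_filter] at ht
      obtain ⟨hs, hN, -, -, -⟩ := hT t ht.1
      obtain ⟨e1, e2⟩ := hf t ht.1
      rw [sum3 hij hik hjk, e1, e2, ht.2] at hs
      push_cast at hs
      have hNi := hN i
      have hNj := hN j
      rw [e1] at hNi
      rw [e2] at hNj
      push_cast at hNi hNj
      exact ⟨by linarith, hNi, hNj⟩)
    rwa [Finset.card_image_of_injOn] at h3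
    intro t ht t' ht' h
    rw [Finset.mem_coe, Finset.mem_filter] at ht ht'
    apply eq_of_two ha hij hik hjk (hT t ht.1).1 (hT t' ht'.1).1
    · rw [(hf t ht.1).1, (hf t' ht'.1).1, h]
    · rw [(hf t ht.1).2, (hf t' ht'.1).2, h]
  refine (card_real (fun t => t k) T (T.image fun t => t k)
    (fun t ht => Finset.mem_image_of_mem _ ht) _ h2).trans ?_
  exact mul_le_mul_of_nonneg_right h1 hK₂0

theorem bp_unif (a : Fin 3 → ℤ) (ha : ∀ i, a i ≠ 0) (ε : ℝ) (hε : 0 < ε) (B : ℕ) :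
    ∃ K : ℝ, 0 ≤ K ∧
    ∀ i j : Fin 3, ∀ p q : ℕ, 1 ≤ p → p ≤ B → 1 ≤ q → q ≤ B → ∀ N : ℝ, 1 ≤ N → ∀ m : ℤ, m ≠ 0 →
      ∀ s : Finset (ℕ × ℕ), (∀ P ∈ s, OnCurve p q (a i) (a j) m N P) →
        (s.card : ℝ) ≤ K * N ^ (1 / ((p : ℝ) * q) + ε) := by
  classical
  have h : ∀ z : (Fin 3 × Fin 3) × (ℕ × ℕ), ∃ K : ℝ, 0 ≤ K ∧ (1 ≤ z.2.1 → 1 ≤ z.2.2 →
      ∀ N : ℝ, 1 ≤ N → ∀ m : ℤ, m ≠ 0 →
      ∀ s : Finset (ℕ × ℕ), (∀ P ∈ s, OnCurve z.2.1 z.2.2 (a z.1.1) (a z.1.2) m N P) →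
        (s.card : ℝ) ≤ K * N ^ (1 / ((z.2.1 : ℝ) * z.2.2) + ε)) := by
    rintro ⟨⟨i, j⟩, ⟨p, q⟩⟩
    by_cases hpq : 1 ≤ p ∧ 1 ≤ q
    · obtain ⟨K, hK, h⟩ := bp p q hpq.1 hpq.2 (a i) (a j) (ha i) (ha j) ε hε
      exact ⟨K, hK, fun _ _ => h⟩
    · exact ⟨0, le_rfl, fun h1 h2 => absurd ⟨h1, h2⟩ hpq⟩
  choose K hK0 hK using h
  refine ⟨∑ z ∈ Finset.univ ×ˢ (Finset.range (B + 1) ×ˢ Finset.range (B + 1)), K z,
    Finset.sum_nonneg fun z _ => hK0 z, ?_⟩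
  intro i j p q hp hp' hq hq' N hN m hm s hs
  refine (hK ((i, j), (p, q)) hp hq N hN m hm s hs).trans ?_
  apply mul_le_mul_of_nonneg_right _ (Real.rpow_nonneg (by linarith) _)
  apply Finset.single_le_sum (fun z _ => hK0 z)
  simp only [Finset.mem_product, Finset.mem_univ, Finset.mem_range, true_and]
  omega

/-- The general form: `cond n s` is the condition on the degrees and the spreads, `θ` the exponent. -/
theorem main_gen (a : Fin 3 → ℤ) (ha : ∀ i, a i ≠ 0) (M ε : ℝ) (hε : 0 < ε) (B : ℕ) (θ : ℝ)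
    (cond : (Fin 3 → ℕ) → (Fin 3 → ℕ) → Prop)
    (hcond : ∀ n s, (∀ i, 0 < n i) → cond n s → ∀ x, s x + 1 < n x)
    (hcl : ∀ n b s : Fin 3 → ℕ, (∀ i, 0 < n i) → cond n s → ∃ i j k : Fin 3,
      i ≠ j ∧ i ≠ k ∧ j ≠ k ∧
      (((ty n b i : ℝ))⁻¹ + ((ty n b j : ℝ))⁻¹ ≤ θ ∨
        (s i = 0 ∧ b i ≠ 1 ∧ n i ≤ B ∧ s j = 0 ∧ b j ≠ 1 ∧ n j ≤ B ∧
          ((ty n b k : ℝ))⁻¹ + 1 / ((n i : ℝ) * n j) ≤ θ))) :
    ∃ K : ℝ, 0 ≤ K ∧
    ∀ N : ℝ, 1 ≤ N → ∀ S : Finset (Fin 3 → ℕ),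
      (∀ t ∈ S, ∑ x, a x * (t x : ℤ) = 0 ∧ (∀ x, (t x : ℝ) ≤ N) ∧ ∃ n b s : Fin 3 → ℕ,
        (∀ x, Rep M (t x) (n x) (b x) (s x)) ∧ cond n s) →
      (S.card : ℝ) ≤ K * N ^ (θ + ε) := by
  classical
  set M' : ℕ := ⌈|M|⌉₊ + 1 with hM'
  have hMM : M ≤ (M' : ℝ) ^ 2 := by
    have h1 : |M| ≤ (⌈|M|⌉₊ : ℝ) := Nat.le_ceil _
    have h2 : (M' : ℝ) = (⌈|M|⌉₊ : ℝ) + 1 := by rw [hM']; push_cast; ring
    have h3 : M ≤ |M| := le_abs_self M
    have h4 : 0 ≤ |M| := abs_nonneg M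
    rw [h2]
    nlinarith
  set η : ℝ := ε / 5 with hη
  have hη0 : 0 < η := by positivity
  obtain ⟨K₁, hK₁1, hK₁⟩ := card_ty M' η hη0
  obtain ⟨K₂, hK₂0, hK₂⟩ := bp_unif a ha η hη0 B
  obtain ⟨D, hD1, hD⟩ := log_small η hη0
  have hB0 : 0 ≤ K₁ * K₁ + K₁ * K₂ := by nlinarith [mul_nonneg (by linarith : (0 : ℝ) ≤ K₁) hK₂0]
  refine ⟨8 * D ^ 3 * (K₁ * K₁ + K₁ * K₂), by
    apply mul_nonneg _ hB0
    have : 0 ≤ D := by linarith
    positivity, ?_⟩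
  intro N hN S hS
  have hN0 : 0 < N := by linarith
  have hch : ∀ t : Fin 3 → ℕ, ∃ n b s : Fin 3 → ℕ, t ∈ S →
      (∀ x, Rep M (t x) (n x) (b x) (s x)) ∧ cond n s := by
    intro t
    by_cases ht : t ∈ S
    · obtain ⟨-, -, n, b, s, h⟩ := hS t ht
      exact ⟨n, b, s, fun _ => h⟩
    · exact ⟨0, 0, 0, fun h => absurd h ht⟩
  choose n b s hnbs using hch
  have hnpos : ∀ t ∈ S, ∀ x, 0 < n t x := by
    intro t ht x
    obtain ⟨_, _, _, ⟨i, _⟩, _⟩ := (hnbs t ht).1 x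
    exact Fin.pos i
  have hlt : ∀ t ∈ S, ∀ x, s t x + 1 < n t x := fun t ht =>
    hcond _ _ (hnpos t ht) (hnbs t ht).2
  set L : ℕ := Nat.log 2 ⌊N⌋₊ with hL
  have hfl : 1 ≤ ⌊N⌋₊ := Nat.le_floor (by simpa using hN)
  have hLD : (L : ℝ) + 1 ≤ D * N ^ η := by
    apply hD N hN
    have h1 : 2 ^ L ≤ ⌊N⌋₊ := Nat.pow_log_le_self 2 (by omega)
    calc (2 : ℝ) ^ L = ((2 ^ L : ℕ) : ℝ) := by push_cast; ring
      _ ≤ (⌊N⌋₊ : ℝ) := by exact_mod_cast h1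
      _ ≤ N := Nat.floor_le hN0.le
  -- the types
  let key : (Fin 3 → ℕ) → (Fin 3 → ℕ) × (Fin 3 → Bool) := fun t =>
    (fun x => ty (n t) (b t) x, fun x => decide (s t x = 0 ∧ b t x ≠ 1 ∧ n t x ≤ B))
  have hTy : ∀ t ∈ S, ∀ x, Ty M' (ty (n t) (b t) x) (t x) := by
    intro t ht x
    exact ((hnbs t ht).1 x).ty hMM (hlt t ht x)
  have hkey : ∀ t ∈ S, key t ∈ (Fintype.piFinset fun _ : Fin 3 => Finset.range (L + 1)) ×ˢ
      (Finset.univ : Finset (Fin 3 → Bool)) := by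
    intro t ht
    rw [Finset.mem_product]
    refine ⟨?_, Finset.mem_univ _⟩
    rw [Fintype.mem_piFinset]
    intro x
    rw [Finset.mem_range]
    change ty (n t) (b t) x < L + 1
    have h1 := hTy t ht x
    by_cases h2 : ty (n t) (b t) x = 0
    · omega
    · obtain ⟨h3, h4⟩ := h1
      rw [if_neg h2] at h4
      obtain ⟨b', s', h5, h6, h7, h8, h9⟩ := h4
      have h10 : 2 ^ (ty (n t) (b t) x) ≤ ⌊N⌋₊ := by
        calc 2 ^ (ty (n t) (b t) x) ≤ b' ^ (ty (n t) (b t) x) := Nat.pow_le_pow_left h5 _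
          _ ≤ t x := h8
          _ ≤ ⌊N⌋₊ := Nat.le_floor ((hS t ht).2.1 x)
      have := Nat.le_log_of_pow_le (by norm_num) h10
      omega
  have hfib : ∀ κ ∈ (Fintype.piFinset fun _ : Fin 3 => Finset.range (L + 1)) ×ˢ
      (Finset.univ : Finset (Fin 3 → Bool)), ((S.filter fun t => key t = κ).card : ℝ) ≤
        (K₁ * K₁ + K₁ * K₂) * N ^ (θ + 2 * η) := by
    intro κ _
    rcases (S.filter fun t => key t = κ).eq_empty_or_nonempty with he | ⟨t₀, ht₀⟩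
    · rw [he]
      simp only [Finset.card_empty, Nat.cast_zero]
      exact mul_nonneg hB0 (Real.rpow_nonneg hN0.le _)
    rw [Finset.mem_filter] at ht₀
    obtain ⟨ht₀S, ht₀κ⟩ := ht₀
    have hK₁' := fun τ => hK₁ N hN τ
    have hfilt : ∀ t ∈ S.filter (fun t => key t = κ), t ∈ S ∧ key t = key t₀ := by
      intro t ht
      rw [Finset.mem_filter] at ht
      exact ⟨ht.1, ht.2.trans ht₀κ.symm⟩
    have hty : ∀ t ∈ S.filter (fun t => key t = κ), ∀ x,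
        ty (n t) (b t) x = ty (n t₀) (b t₀) x := by
      intro t ht x
      exact congrFun (congrArg Prod.fst (hfilt t ht).2) x
    have hz : ∀ t ∈ S.filter (fun t => key t = κ), ∀ x,
        (s t x = 0 ∧ b t x ≠ 1 ∧ n t x ≤ B ↔ s t₀ x = 0 ∧ b t₀ x ≠ 1 ∧ n t₀ x ≤ B) := by
      intro t ht x
      have h1 : decide (s t x = 0 ∧ b t x ≠ 1 ∧ n t x ≤ B) =
          decide (s t₀ x = 0 ∧ b t₀ x ≠ 1 ∧ n t₀ x ≤ B) :=
        congrFun (congrArg Prod.snd (hfilt t ht).2) x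
      exact decide_eq_decide.1 h1
    have hpw : ∀ x, s t₀ x = 0 → b t₀ x ≠ 1 → n t₀ x ≤ B →
        ∀ t ∈ S.filter (fun t => key t = κ), ∃ y, t x = y ^ (n t₀ x) := by
      intro x h1 h2 h3 t ht
      obtain ⟨h4, h5, h6⟩ := (hz t ht x).2 ⟨h1, h2, h3⟩
      have h7 := (hnbs t (hfilt t ht).1).1 x
      rw [h4] at h7
      have h8 := hty t ht x
      unfold ty at h8
      rw [if_neg h5, if_neg h2] at h8
      rw [← h8]
      exact ⟨b t x, h7.pow⟩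
    obtain ⟨i, j, k, hij, hik, hjk, hcase⟩ := hcl (n t₀) (b t₀) (s t₀) (hnpos t₀ ht₀S)
      (hnbs t₀ ht₀S).2
    rcases hcase with hle | ⟨hsi, hbi, hni, hsj, hbj, hnj, hle⟩
    · have h1 := pair_bound ha hK₁' hij hik hjk (ty (n t₀) (b t₀) i) (ty (n t₀) (b t₀) j)
        (S.filter fun t => key t = κ) (by
          intro t ht
          have h2 := hTy t (hfilt t ht).1
          refine ⟨(hS t (hfilt t ht).1).1, (hS t (hfilt t ht).1).2.1, ?_, ?_⟩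
          · rw [← hty t ht i]; exact h2 i
          · rw [← hty t ht j]; exact h2 j)
      refine h1.trans ?_
      calc K₁ * N ^ (((ty (n t₀) (b t₀) i : ℕ) : ℝ)⁻¹ + η) *
            (K₁ * N ^ (((ty (n t₀) (b t₀) j : ℕ) : ℝ)⁻¹ + η))
          = K₁ * K₁ * N ^ (((ty (n t₀) (b t₀) i : ℕ) : ℝ)⁻¹ +
              ((ty (n t₀) (b t₀) j : ℕ) : ℝ)⁻¹ + 2 * η) := by
            have e : N ^ (((ty (n t₀) (b t₀) i : ℕ) : ℝ)⁻¹ +
              ((ty (n t₀) (b t₀) j : ℕ) : ℝ)⁻¹ + 2 * η) =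
              N ^ (((ty (n t₀) (b t₀) i : ℕ) : ℝ)⁻¹ + η) *
                N ^ (((ty (n t₀) (b t₀) j : ℕ) : ℝ)⁻¹ + η) := by
              rw [← Real.rpow_add hN0]
              congr 1
              ring
            rw [e]
            ring
        _ ≤ (K₁ * K₁ + K₁ * K₂) * N ^ (θ + 2 * η) := by
            apply mul_le_mul _ _ (Real.rpow_nonneg hN0.le _) hB0
            · have : 0 ≤ K₁ * K₂ := mul_nonneg (by linarith) hK₂0
              linarith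
            · exact Real.rpow_le_rpow_of_exponent_le hN (by linarith)
    · have h1 := bp_bound ha hK₁' hij hik hjk (p := n t₀ i) (q := n t₀ j) (K₂ := K₂)
        (ty (n t₀) (b t₀) k)
        (hK₂ i j (n t₀ i) (n t₀ j) (hnpos t₀ ht₀S i) hni (hnpos t₀ ht₀S j) hnj N hN)
        (mul_nonneg hK₂0 (Real.rpow_nonneg hN0.le _))
        (S.filter fun t => key t = κ) (by
          intro t ht
          have h2 := hTy t (hfilt t ht).1
          refine ⟨(hS t (hfilt t ht).1).1, (hS t (hfilt t ht).1).2.1, ?_,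
            hpw i hsi hbi hni t ht, hpw j hsj hbj hnj t ht⟩
          rw [← hty t ht k]; exact h2 k)
      refine h1.trans ?_
      calc K₁ * N ^ (((ty (n t₀) (b t₀) k : ℕ) : ℝ)⁻¹ + η) *
            (K₂ * N ^ (1 / ((n t₀ i : ℝ) * (n t₀ j : ℝ)) + η))
          = K₁ * K₂ * N ^ (((ty (n t₀) (b t₀) k : ℕ) : ℝ)⁻¹ +
              1 / ((n t₀ i : ℝ) * (n t₀ j : ℝ)) + 2 * η) := by
            have e : N ^ (((ty (n t₀) (b t₀) k : ℕ) : ℝ)⁻¹ +
              1 / ((n t₀ i : ℝ) * (n t₀ j : ℝ)) + 2 * η) =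
              N ^ (((ty (n t₀) (b t₀) k : ℕ) : ℝ)⁻¹ + η) *
                N ^ (1 / ((n t₀ i : ℝ) * (n t₀ j : ℝ)) + η) := by
              rw [← Real.rpow_add hN0]
              congr 1
              ring
            rw [e]
            ring
        _ ≤ (K₁ * K₁ + K₁ * K₂) * N ^ (θ + 2 * η) := by
            apply mul_le_mul _ _ (Real.rpow_nonneg hN0.le _) hB0
            · have : 0 ≤ K₁ * K₁ := mul_nonneg (by linarith) (by linarith)
              linarith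
            · exact Real.rpow_le_rpow_of_exponent_le hN (by linarith)
  have hfinal := card_real key S _ hkey _ hfib
  have hcard : (((Fintype.piFinset fun _ : Fin 3 => Finset.range (L + 1)) ×ˢ
      (Finset.univ : Finset (Fin 3 → Bool))).card : ℝ) = 8 * ((L : ℝ) + 1) ^ 3 := by
    rw [Finset.card_product, Fintype.card_piFinset]
    simp only [Finset.card_range, Finset.prod_const, Finset.card_univ, Fintype.card_fin,
      Fintype.card_pi, Fintype.card_bool]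
    push_cast
    ring
  rw [hcard] at hfinal
  refine hfinal.trans ?_
  have hL0 : (0 : ℝ) ≤ (L : ℝ) + 1 := by positivity
  calc 8 * ((L : ℝ) + 1) ^ 3 * ((K₁ * K₁ + K₁ * K₂) * N ^ (θ + 2 * η))
      ≤ 8 * (D * N ^ η) ^ 3 * ((K₁ * K₁ + K₁ * K₂) * N ^ (θ + 2 * η)) := by
        apply mul_le_mul_of_nonneg_right _ (mul_nonneg hB0 (Real.rpow_nonneg hN0.le _))
        apply mul_le_mul_of_nonneg_left _ (by norm_num)
        exact pow_le_pow_left₀ hL0 hLD 3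
    _ = 8 * D ^ 3 * (K₁ * K₁ + K₁ * K₂) * N ^ (θ + ε) := by
        have h12 : N ^ (θ + ε) = (N ^ η) ^ 3 * N ^ (θ + 2 * η) := by
          rw [← Real.rpow_natCast (N ^ η) 3, ← Real.rpow_mul hN0.le, ← Real.rpow_add hN0]
          congr 1
          rw [hη]
          push_cast
          ring
        rw [h12]
        ring

theorem lt_of_sum {n s : Fin 3 → ℕ} (hn : ∀ i, 0 < n i)
    (h : ∑ x, (1 + (s x : ℝ)) / (n x : ℝ) < 1) (x : Fin 3) : s x + 1 < n x := by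
  have hn0 : ∀ x, (0 : ℝ) < n x := fun x => by exact_mod_cast hn x
  have h1 : (1 + (s x : ℝ)) / (n x : ℝ) < 1 := by
    refine lt_of_le_of_lt (Finset.single_le_sum (f := fun x => (1 + (s x : ℝ)) / (n x : ℝ))
      (fun j _ => ?_) (Finset.mem_univ x)) h
    have := hn0 j
    positivity
  rw [div_lt_one (hn0 x)] at h1
  have h2 : (s x : ℝ) + 1 < n x := by linarith
  exact_mod_cast h2

theorem main (a : Fin 3 → ℤ) (ha : ∀ i, a i ≠ 0) (M ε : ℝ) (hε : 0 < ε) : ∃ K : ℝ, 0 ≤ K ∧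
    ∀ N : ℝ, 1 ≤ N → ∀ S : Finset (Fin 3 → ℕ),
      (∀ t ∈ S, ∑ x, a x * (t x : ℤ) = 0 ∧ (∀ x, (t x : ℝ) ≤ N) ∧ ∃ n b s : Fin 3 → ℕ,
        (∀ x, Rep M (t x) (n x) (b x) (s x)) ∧ ∑ x, (1 + (s x : ℝ)) / (n x : ℝ) < 1) →
      (S.card : ℝ) ≤ K * N ^ ((11 : ℝ) / 30 + ε) :=
  main_gen a ha M ε hε 29 (11 / 30) (fun n s => ∑ x, (1 + (s x : ℝ)) / (n x : ℝ) < 1)
    (fun _ _ hn h x => lt_of_sum hn h x) (fun n b s hn h => classify n b s hn h)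

end Pool.Agent.Helper54.DC
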