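import Mathlib

/-!
Counting the integers whose primes divide a given integer (Rankin's trick), and the integers which are
products of small spread.
-/

set_option autoImplicit false

namespace Pool.Agent.Helper54.DC

open Finset

theorem rad_count (δ : ℝ) (hδ : 0 < δ) : ∃ C : ℝ, 1 ≤ C ∧ ∀ R : ℕ, R ≠ 0 → ∀ x : ℝ, 0 ≤ x →
    ∀ s : Finset ℕ, (∀ W ∈ s, W ≠ 0 ∧ (W : ℝ) ≤ x ∧ W.primeFactors ⊆ R.primeFactors) →
      (s.card : ℝ) ≤ C * (x * R) ^ δ := by
  classical
  set c : ℝ := (1 - (2 : ℝ) ^ (-δ))⁻¹ with hc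
  set p₀ : ℕ := ⌈(2 : ℝ) ^ (1 / δ)⌉₊ with hp₀
  have h2 : (2 : ℝ) ^ (-δ) < 1 := Real.rpow_lt_one_of_one_lt_of_neg (by norm_num) (by linarith)
  have h2' : 0 < (2 : ℝ) ^ (-δ) := Real.rpow_pos_of_pos (by norm_num) _
  have hc1 : 1 ≤ c := by
    rw [hc]
    exact (one_le_inv₀ (by linarith)).2 (by linarith)
  refine ⟨c ^ p₀, one_le_pow₀ hc1, ?_⟩
  intro R hR x hx s hs
  let f : ℕ →*₀ ℝ :=
    { toFun := fun n => (n : ℝ) ^ (-δ)
      map_zero' := by
        rw [Nat.cast_zero, Real.zero_rpow (by linarith)]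
      map_one' := by simp
      map_mul' := by
        intro a b
        push_cast
        rw [Real.mul_rpow (by positivity) (by positivity)] }
  have hfv : ∀ n : ℕ, f n = (n : ℝ) ^ (-δ) := fun n => rfl
  have hfn : ∀ n : ℕ, 0 ≤ f n := fun n => by rw [hfv]; positivity
  have hf : ∀ {p : ℕ}, p.Prime → ‖f p‖ < 1 := by
    intro p hp
    rw [Real.norm_of_nonneg (hfn p), hfv]
    exact Real.rpow_lt_one_of_one_lt_of_neg (by exact_mod_cast hp.one_lt) (by linarith)
  have hhas := (EulerProduct.summable_and_hasSum_factoredNumbers_prod_filter_prime_geometric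
    (f := (f : ℕ →* ℝ)) hf R.primeFactors).2
  have hfil : (R.primeFactors.filter fun p => p.Prime) = R.primeFactors := by
    apply Finset.filter_true_of_mem
    intro p hp
    exact Nat.prime_of_mem_primeFactors hp
  rw [hfil] at hhas
  have h3 : ∑ W ∈ s, f W ≤ ∏ p ∈ R.primeFactors, (1 - f p)⁻¹ := by
    have h4 := sum_le_hasSum (s.subtype (· ∈ Nat.factoredNumbers R.primeFactors))
      (fun i _ => hfn i) hhas
    rw [← Finset.sum_subtype_of_mem (s := s) (fun n => f n)
      (p := (· ∈ Nat.factoredNumbers R.primeFactors))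
      (fun W hW => Nat.mem_factoredNumbers_iff_primeFactors_subset.2 ⟨(hs W hW).1, (hs W hW).2.2⟩)]
    exact h4
  have h5 : (s.card : ℝ) ≤ x ^ δ * ∑ W ∈ s, f W := by
    rw [Finset.mul_sum, Finset.card_eq_sum_ones, Nat.cast_sum]
    apply Finset.sum_le_sum
    intro W hW
    have hW0 : (0 : ℝ) < W := by
      have := (hs W hW).1
      exact_mod_cast Nat.pos_of_ne_zero this
    rw [hfv, Real.rpow_neg hW0.le, Nat.cast_one, ← div_eq_mul_inv,
      one_le_div (Real.rpow_pos_of_pos hW0 _)]
    exact Real.rpow_le_rpow hW0.le (hs W hW).2.1 hδ.le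
  have h6 : ∏ p ∈ R.primeFactors, (1 - f p)⁻¹ ≤
      ∏ p ∈ R.primeFactors, ((if p < p₀ then c else 1) * (p : ℝ) ^ δ) := by
    apply Finset.prod_le_prod
    · intro p hp
      have := hf (Nat.prime_of_mem_primeFactors hp)
      rw [Real.norm_of_nonneg (hfn p)] at this
      exact (inv_pos.2 (by linarith)).le
    · intro p hp
      have hpp := Nat.prime_of_mem_primeFactors hp
      have hlt := hf hpp
      rw [Real.norm_of_nonneg (hfn p)] at hlt
      have hp0 : (0 : ℝ) < p := by exact_mod_cast hpp.pos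
      have hp1 : (1 : ℝ) ≤ (p : ℝ) ^ δ :=
        Real.one_le_rpow (by exact_mod_cast hpp.one_lt.le) hδ.le
      split_ifs with h
      · have h7 : (1 - f p)⁻¹ ≤ c := by
          rw [hc]
          apply inv_anti₀ (by linarith)
          have : f p ≤ (2 : ℝ) ^ (-δ) := by
            rw [hfv]
            exact Real.rpow_le_rpow_of_nonpos (by norm_num) (by exact_mod_cast hpp.two_le)
              (by linarith)
          linarith
        calc (1 - f p)⁻¹ ≤ c * 1 := by linarith
          _ ≤ c * (p : ℝ) ^ δ := mul_le_mul_of_nonneg_left hp1 (by linarith)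
      · have h8 : (2 : ℝ) ≤ (p : ℝ) ^ δ := by
          have h9 : (2 : ℝ) ^ (1 / δ) ≤ p :=
            (Nat.le_ceil _).trans (by exact_mod_cast not_lt.1 h)
          calc (2 : ℝ) = ((2 : ℝ) ^ (1 / δ)) ^ δ := by
                rw [← Real.rpow_mul (by norm_num), one_div_mul_cancel hδ.ne', Real.rpow_one]
            _ ≤ (p : ℝ) ^ δ := Real.rpow_le_rpow (by positivity) h9 hδ.le
        rw [one_mul, inv_le_iff_one_le_mul₀ (by linarith), hfv, Real.rpow_neg hp0.le, mul_sub,
          mul_one, mul_inv_cancel₀ (by linarith)]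
        linarith
  have h10 : ∏ p ∈ R.primeFactors, ((if p < p₀ then c else 1) * (p : ℝ) ^ δ) ≤
      c ^ p₀ * (R : ℝ) ^ δ := by
    rw [Finset.prod_mul_distrib]
    apply mul_le_mul
    · rw [← Finset.prod_filter, Finset.prod_const]
      apply pow_le_pow_right₀ hc1
      calc _ ≤ (Finset.range p₀).card := by
            apply Finset.card_le_card
            intro p hp
            rw [Finset.mem_filter] at hp
            exact Finset.mem_range.2 hp.2
        _ = p₀ := Finset.card_range _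
    · rw [Real.finsetProd_rpow _ _ (fun p _ => Nat.cast_nonneg p)]
      apply Real.rpow_le_rpow (Finset.prod_nonneg fun p _ => Nat.cast_nonneg p) _ hδ.le
      rw [← Nat.cast_prod]
      exact_mod_cast Nat.le_of_dvd (Nat.pos_of_ne_zero hR) (Nat.prod_primeFactors_dvd R)
    · exact Finset.prod_nonneg fun p _ => by positivity
    · exact pow_nonneg (by linarith) _
  calc (s.card : ℝ) ≤ x ^ δ * ∑ W ∈ s, f W := h5
    _ ≤ x ^ δ * (c ^ p₀ * (R : ℝ) ^ δ) :=
      mul_le_mul_of_nonneg_left (h3.trans (h6.trans h10)) (Real.rpow_nonneg hx _)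
    _ = c ^ p₀ * (x * R) ^ δ := by
      rw [Real.mul_rpow hx (Nat.cast_nonneg _)]
      ring

end Pool.Agent.Helper54.DC
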